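import Pool.Agent.H70.Mono.Defs3

/-!
# Module G2 of project MONO: bounding the degrees of the hypergraph
-/

set_option autoImplicit false

namespace Pool.Agent.H70.Mono

open MvPolynomial

variable {k : Type} [Field k] {σ τ : Type}

open Classical in
/-- the degree of a vertex -/
noncomputable def dg (E : Finset (Finset σ)) (i : σ) : ℕ := (E.filter (fun e => i ∈ e)).card

open Classical in
theorem dg_insert_le (E : Finset (Finset σ)) (a : Finset σ) (i : σ) :
    dg (insert a E) i ≤ dg E i + if i ∈ a then 1 else 0 := by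
  unfold dg
  rw [Finset.filter_insert]
  split_ifs with h
  · exact Finset.card_insert_le _ _
  · omega

theorem dg_zero (E : Finset (Finset σ)) (i : σ) (h : ∀ e ∈ E, i ∉ e) : dg E i = 0 := by
  classical
  unfold dg
  rw [Finset.card_eq_zero, Finset.filter_eq_empty_iff]
  exact fun e he => h e he

open Classical in
theorem occ_eq (E : Finset (Finset σ)) (S : Finset σ) (hS : ∀ e ∈ E, ∀ i ∈ e, i ∈ S) :
    occ E = ∑ i ∈ S, (dg E i - 3) := by
  unfold occ
  refine Finset.sum_subset ?_ ?_
  · intro i hi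
    obtain ⟨e, he, hi⟩ := Finset.mem_biUnion.mp hi
    exact hS e he i hi
  · intro i _ hi
    have : dg E i = 0 := dg_zero E i fun e he hie => hi (Finset.mem_biUnion.mpr ⟨e, he, hie⟩)
    unfold dg at this
    rw [this]
    rfl

/-- the image of a hypergraph -/
noncomputable def mapE (j : σ ↪ τ) (E : Finset (Finset σ)) : Finset (Finset τ) :=
  E.map (Finset.mapEmbedding j).toEmbedding

theorem mem_mapE (j : σ ↪ τ) (E : Finset (Finset σ)) (a : Finset τ) :
    a ∈ mapE j E ↔ ∃ e ∈ E, e.map j = a := by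
  unfold mapE
  simp

theorem dg_mapE (j : σ ↪ τ) (E : Finset (Finset σ)) (i : σ) : dg (mapE j E) (j i) = dg E i := by
  classical
  unfold dg mapE
  rw [Finset.filter_map, Finset.card_map]
  congr 1
  ext e
  simp

theorem dg_mapE_zero (j : σ ↪ τ) (E : Finset (Finset σ)) (t : τ) (ht : ∀ i, j i ≠ t) :
    dg (mapE j E) t = 0 := by
  refine dg_zero _ _ fun a ha h => ?_
  obtain ⟨e, _, rfl⟩ := (mem_mapE j E a).mp ha
  obtain ⟨i, _, hi⟩ := Finset.mem_map.mp h
  exact ht i hi

theorem prod_map' (j : σ ↪ τ) (e : Finset σ) :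
    (∏ i ∈ e.map j, X i : MvPolynomial τ k) = rename j (∏ i ∈ e, X i) := by
  rw [Finset.prod_map, map_prod]
  simp

/-- the sum over the edges -/
noncomputable def hE (k : Type) [Field k] (E : Finset (Finset σ)) : MvPolynomial σ k :=
  ∑ e ∈ E, ∏ i ∈ e, X i

/-- the linear form -/
noncomputable def hl (ℓ : σ →₀ k) : MvPolynomial σ k := ℓ.sum fun i c => C c * X i

theorem hyp_eq (E : Finset (Finset σ)) (ℓ : σ →₀ k) : hyp E ℓ = hE k E + hl ℓ := rfl

theorem hE_mapE (j : σ ↪ τ) (E : Finset (Finset σ)) : hE k (mapE j E) = rename j (hE k E) := by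
  unfold hE mapE
  rw [Finset.sum_map, map_sum]
  refine Finset.sum_congr rfl fun e _ => ?_
  exact prod_map' j e

open Classical in
theorem hE_insert (E : Finset (Finset σ)) (a : Finset σ) (h : a ∉ E) :
    hE k (insert a E) = ∏ i ∈ a, X i + hE k E := Finset.sum_insert h

theorem hl_add (ℓ ℓ' : σ →₀ k) : hl (ℓ + ℓ') = hl ℓ + hl ℓ' := by
  classical
  unfold hl
  refine Finsupp.sum_add_index' ?_ ?_
  · intro i; simp
  · intro i a b; rw [map_add, add_mul]

theorem hl_single (i : σ) (c : k) : hl (Finsupp.single i c) = C c * X i := by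
  unfold hl
  rw [Finsupp.sum_single_index]
  simp

theorem hl_map (j : σ ↪ τ) (ℓ : σ →₀ k) : hl (ℓ.mapDomain j) = rename j (hl ℓ) := by
  classical
  unfold hl
  rw [Finsupp.sum_mapDomain_index, Finsupp.sum, Finsupp.sum, map_sum]
  · refine Finset.sum_congr rfl fun i _ => ?_
    simp
  · intro i; simp
  · intro i a b; rw [map_add, add_mul]

open Classical in
/-- the new hypergraph -/
noncomputable def newE (j : σ ↪ τ) (u v u' v' : τ) (E0 : Finset (Finset σ)) (e1 e2 : Finset σ)
    (x : σ) : Finset (Finset τ) :=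
  insert {u, v} (insert (insert u ((e1.erase x).map j)) (insert (insert u ((e2.erase x).map j))
    (insert {u', v'} (insert {u', v, j x} (mapE j E0)))))

section new

variable (j : σ ↪ τ) {u v u' v' : τ} (E0 : Finset (Finset σ)) {e1 e2 : Finset σ} {x : σ}
  (hu : ∀ i, j i ≠ u) (hv : ∀ i, j i ≠ v) (hu' : ∀ i, j i ≠ u') (hv' : ∀ i, j i ≠ v')
  (huv : u ≠ v) (huu' : u ≠ u') (huv' : u ≠ v') (hvu' : v ≠ u') (hvv' : v ≠ v') (hu'v' : u' ≠ v')
  (hx1 : x ∈ e1) (hx2 : x ∈ e2) (h12 : e1 ≠ e2)

theorem notMem_map' {t : τ} (ht : ∀ i, j i ≠ t) (e : Finset σ) : t ∉ e.map j := by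
  intro h
  obtain ⟨i, _, hi⟩ := Finset.mem_map.mp h
  exact ht i hi

theorem notMem_mapE {t : τ} (ht : ∀ i, j i ≠ t) {a : Finset τ} (ha : t ∈ a) : a ∉ mapE j E0 := by
  intro h
  obtain ⟨e, _, rfl⟩ := (mem_mapE j E0 a).mp h
  exact notMem_map' j ht e ha

include hu hv hu' huv huu' huv' hvu' hvv' hu'v' hx1 hx2 h12 in
open Classical in
theorem hE_newE : hE k (newE j u v u' v' E0 e1 e2 x) =
    X u * X v + X u * rename j (∏ i ∈ e1.erase x, X i) + X u * rename j (∏ i ∈ e2.erase x, X i) +
      X u' * X v' + X u' * X v * X (j x) + rename j (hE k E0) := by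
  unfold newE
  have n1 : ({u, v} : Finset τ) ≠ insert u ((e1.erase x).map j) := by
    intro h
    have : v ∈ insert u ((e1.erase x).map j) := h ▸ (by simp)
    rcases Finset.mem_insert.mp this with h | h
    · exact huv h.symm
    · exact notMem_map' j hv _ h
  have n2 : ({u, v} : Finset τ) ≠ insert u ((e2.erase x).map j) := by
    intro h
    have : v ∈ insert u ((e2.erase x).map j) := h ▸ (by simp)
    rcases Finset.mem_insert.mp this with h | h
    · exact huv h.symm
    · exact notMem_map' j hv _ h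
  have n3 : ({u, v} : Finset τ) ≠ {u', v'} := by
    intro h
    have : u ∈ ({u', v'} : Finset τ) := h ▸ (by simp)
    simp [huu', huv'] at this
  have n4 : ({u, v} : Finset τ) ≠ {u', v, j x} := by
    intro h
    have : u ∈ ({u', v, j x} : Finset τ) := h ▸ (by simp)
    simp [huu', huv, (hu x).symm] at this
  have n5 : insert u ((e1.erase x).map j) ≠ insert u ((e2.erase x).map j) := by
    intro h
    apply h12
    have h1 := congrArg (fun s => Finset.erase s u) h
    simp only [Finset.erase_insert (notMem_map' j hu _)] at h1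
    have h2 := Finset.map_injective j h1
    rw [← Finset.insert_erase hx1, h2, Finset.insert_erase hx2]
  have n6 : ∀ e : Finset σ, insert u (e.map j) ≠ {u', v'} := by
    intro e h
    have : u ∈ ({u', v'} : Finset τ) := h ▸ (by simp)
    simp [huu', huv'] at this
  have n7 : ∀ e : Finset σ, insert u (e.map j) ≠ {u', v, j x} := by
    intro e h
    have : u ∈ ({u', v, j x} : Finset τ) := h ▸ (by simp)
    simp [huu', huv, (hu x).symm] at this
  have n8 : ({u', v'} : Finset τ) ≠ {u', v, j x} := by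
    intro h
    have : v ∈ ({u', v'} : Finset τ) := h ▸ (by simp)
    simp [hvu', hvv'] at this
  rw [hE_insert, hE_insert, hE_insert, hE_insert, hE_insert, hE_mapE]
  · rw [Finset.prod_pair huv, Finset.prod_insert (notMem_map' j hu _),
      Finset.prod_insert (notMem_map' j hu _), prod_map', prod_map', Finset.prod_pair hu'v',
      Finset.prod_insert (by simp [hvu'.symm, (hu' x).symm]), Finset.prod_pair (hv x).symm]
    ring
  · exact notMem_mapE j E0 hu' (by simp)
  · rw [Finset.mem_insert]
    rintro (h | h)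
    · exact n8 h
    · exact notMem_mapE j E0 hu' (by simp) h
  · rw [Finset.mem_insert, Finset.mem_insert]
    rintro (h | h | h)
    · exact n6 _ h
    · exact n7 _ h
    · exact notMem_mapE j E0 hu (by simp) h
  · rw [Finset.mem_insert, Finset.mem_insert, Finset.mem_insert]
    rintro (h | h | h | h)
    · exact n5 h
    · exact n6 _ h
    · exact n7 _ h
    · exact notMem_mapE j E0 hu (by simp) h
  · rw [Finset.mem_insert, Finset.mem_insert, Finset.mem_insert, Finset.mem_insert]
    rintro (h | h | h | h | h)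
    · exact n1 h
    · exact n2 h
    · exact n3 h
    · exact n4 h
    · exact notMem_mapE j E0 hu (by simp) h

open Classical in
theorem dg_newE_le (t : τ) : dg (newE j u v u' v' E0 e1 e2 x) t ≤
    dg (mapE j E0) t + (if t ∈ ({u', v, j x} : Finset τ) then 1 else 0) +
      (if t ∈ ({u', v'} : Finset τ) then 1 else 0) +
      (if t ∈ insert u ((e2.erase x).map j) then 1 else 0) +
      (if t ∈ insert u ((e1.erase x).map j) then 1 else 0) +
      (if t ∈ ({u, v} : Finset τ) then 1 else 0) := by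
  unfold newE
  refine (dg_insert_le _ _ _).trans (Nat.add_le_add_right ?_ _)
  refine (dg_insert_le _ _ _).trans (Nat.add_le_add_right ?_ _)
  refine (dg_insert_le _ _ _).trans (Nat.add_le_add_right ?_ _)
  refine (dg_insert_le _ _ _).trans (Nat.add_le_add_right ?_ _)
  exact dg_insert_le _ _ _

end new

section step

variable {κ : σ → Fin 3} {E : Finset (Finset σ)} {ℓ : σ →₀ k}

open Classical in
theorem hE_split {e1 e2 : Finset σ} (h1 : e1 ∈ E) (h2 : e2 ∈ E) (h12 : e1 ≠ e2) :
    hE k E = ∏ i ∈ e1, X i + ∏ i ∈ e2, X i + hE k ((E.erase e1).erase e2) := by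
  unfold hE
  rw [← Finset.add_sum_erase E _ h1,
    ← Finset.add_sum_erase (E.erase e1) _ (Finset.mem_erase.mpr ⟨h12.symm, h2⟩), add_assoc]

theorem exists_colour2 (c : Fin 3) : ∃ c1 c2 : Fin 3, c1 ≠ c ∧ c2 ≠ c ∧ c1 ≠ c2 := by
  fin_cases c
  · exact ⟨1, 2, by decide, by decide, by decide⟩
  · exact ⟨0, 2, by decide, by decide, by decide⟩
  · exact ⟨0, 1, by decide, by decide, by decide⟩

/-- an edge is fine -/
def Fine {τ : Type} (κ : τ → Fin 3) (e : Finset τ) : Prop := 2 ≤ e.card ∧ Set.InjOn κ (e : Set τ)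

open Classical in
theorem fine_insert_u {κ' : τ → Fin 3} (j : σ ↪ τ) {u : τ}
    (hj : ∀ i, κ' (j i) = κ i) (hu : ∀ i, j i ≠ u) {e : Finset σ} {x : σ} (hx : x ∈ e)
    (hux : κ' u = κ x) (he : Fine κ e) : Fine κ' (insert u ((e.erase x).map j)) := by
  have hnm : u ∉ (e.erase x).map j := notMem_map' j hu _
  constructor
  · rw [Finset.card_insert_of_notMem hnm, Finset.card_map, Finset.card_erase_of_mem hx]
    have := he.1
    omega
  · have key : ∀ a ∈ (e.erase x).map j, κ' a ≠ κ' u := by
      intro a ha h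
      obtain ⟨i, hi, rfl⟩ := Finset.mem_map.mp ha
      rw [hj, hux] at h
      obtain ⟨hix, hie⟩ := Finset.mem_erase.mp hi
      exact hix (he.2 hie hx h)
    intro a ha b hb hab
    have ha' := Finset.mem_insert.mp (Finset.mem_coe.mp ha)
    have hb' := Finset.mem_insert.mp (Finset.mem_coe.mp hb)
    rcases ha' with ha' | ha' <;> rcases hb' with hb' | hb'
    · rw [ha', hb']
    · rw [ha'] at hab
      exact absurd hab.symm (key b hb')
    · rw [hb'] at hab
      exact absurd hab (key a ha')
    · obtain ⟨i, hi, rfl⟩ := Finset.mem_map.mp ha'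
      obtain ⟨i', hi', rfl⟩ := Finset.mem_map.mp hb'
      rw [hj, hj] at hab
      rw [he.2 (Finset.mem_of_mem_erase hi) (Finset.mem_of_mem_erase hi') hab]

open Classical in
theorem fine_pair {κ' : τ → Fin 3} {s t : τ} (hk : κ' s ≠ κ' t) : Fine κ' {s, t} := by
  have hst : s ≠ t := fun h => hk (by rw [h])
  refine ⟨by rw [Finset.card_pair hst], ?_⟩
  intro a ha b hb hab
  simp only [Finset.coe_insert, Finset.coe_singleton, Set.mem_insert_iff,
    Set.mem_singleton_iff] at ha hb
  rcases ha with rfl | rfl <;> rcases hb with rfl | rfl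
  · rfl
  · exact absurd hab hk
  · exact absurd hab.symm hk
  · rfl

open Classical in
theorem fine_triple {κ' : τ → Fin 3} {r s t : τ} (h1 : κ' r ≠ κ' s) (h2 : κ' r ≠ κ' t)
    (h3 : κ' s ≠ κ' t) : Fine κ' {r, s, t} := by
  have hrs : r ≠ s := fun h => h1 (by rw [h])
  have hrt : r ≠ t := fun h => h2 (by rw [h])
  have hst : s ≠ t := fun h => h3 (by rw [h])
  refine ⟨?_, ?_⟩
  · rw [Finset.card_insert_of_notMem (by simp [hrs, hrt]), Finset.card_pair hst]
    omega
  · intro a ha b hb hab
    simp only [Finset.coe_insert, Finset.coe_singleton, Set.mem_insert_iff,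
      Set.mem_singleton_iff] at ha hb
    rcases ha with rfl | rfl | rfl <;> rcases hb with rfl | rfl | rfl
    · rfl
    · exact absurd hab h1
    · exact absurd hab h2
    · exact absurd hab.symm h1
    · rfl
    · exact absurd hab h3
    · exact absurd hab.symm h2
    · exact absurd hab.symm h3
    · rfl

theorem fine_map {κ' : τ → Fin 3} (j : σ ↪ τ) (hj : ∀ i, κ' (j i) = κ i) {e : Finset σ}
    (he : Fine κ e) : Fine κ' (e.map j) := by
  refine ⟨by rw [Finset.card_map]; exact he.1, ?_⟩
  intro a ha b hb hab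
  obtain ⟨i, hi, rfl⟩ := Finset.mem_map.mp (Finset.mem_coe.mp ha)
  obtain ⟨i', hi', rfl⟩ := Finset.mem_map.mp (Finset.mem_coe.mp hb)
  rw [hj, hj] at hab
  rw [he.2 hi hi' hab]

open Classical in
theorem tri_newE {κ' : τ → Fin 3} (j : σ ↪ τ) {u v u' v' : τ} {e1 e2 : Finset σ} {x : σ}
    (hT : Tri κ E) (he1 : e1 ∈ E) (he2 : e2 ∈ E) (hx1 : x ∈ e1) (hx2 : x ∈ e2)
    (hu : ∀ i, j i ≠ u) (hj : ∀ i, κ' (j i) = κ i) (ku : κ' u = κ x) (kv : κ' v ≠ κ x)
    (ku' : κ' u' ≠ κ x) (kvu' : κ' v ≠ κ' u') (kv' : κ' v' = κ x) :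
    Tri κ' (newE j u v u' v' ((E.erase e1).erase e2) e1 e2 x) := by
  intro a ha
  unfold newE at ha
  rw [Finset.mem_insert, Finset.mem_insert, Finset.mem_insert, Finset.mem_insert,
    Finset.mem_insert, mem_mapE] at ha
  rcases ha with rfl | rfl | rfl | rfl | rfl | ⟨e, he, rfl⟩
  · exact fine_pair (by rw [ku]; exact kv.symm)
  · exact fine_insert_u j hj hu hx1 ku (hT e1 he1)
  · exact fine_insert_u j hj hu hx2 ku (hT e2 he2)
  · exact fine_pair (by rw [kv']; exact ku')
  · exact fine_triple kvu'.symm (by rw [hj]; exact ku') (by rw [hj]; exact kv)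
  · exact fine_map j hj (hT e (Finset.mem_of_mem_erase (Finset.mem_of_mem_erase he)))

open Classical in
theorem dg_erase2 {e1 e2 : Finset σ} (he1 : e1 ∈ E) (he2 : e2 ∈ E) (h12 : e1 ≠ e2) (i : σ) :
    dg E i = dg ((E.erase e1).erase e2) i + (if i ∈ e2 then 1 else 0) +
        (if i ∈ e1 then 1 else 0) := by
  have r1 : E = insert e1 (E.erase e1) := (Finset.insert_erase he1).symm
  have r2 : E.erase e1 = insert e2 ((E.erase e1).erase e2) :=
    (Finset.insert_erase (Finset.mem_erase.mpr ⟨h12.symm, he2⟩)).symm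
  unfold dg
  conv_lhs => rw [r1, Finset.filter_insert, r2, Finset.filter_insert]
  by_cases m1 : i ∈ e1 <;> by_cases m2 : i ∈ e2
  · rw [if_pos m1, if_pos m2, if_pos m1, if_pos m2, Finset.card_insert_of_notMem,
      Finset.card_insert_of_notMem]
    · simp
    · simp [h12]
  · rw [if_pos m1, if_neg m2, if_pos m1, if_neg m2, Finset.card_insert_of_notMem]
    simp
  · rw [if_neg m1, if_pos m2, if_neg m1, if_pos m2, Finset.card_insert_of_notMem]
    simp
  · rw [if_neg m1, if_neg m2, if_neg m1, if_neg m2]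
    rfl

open Classical in
theorem occ_newE_lt (j : σ ↪ τ) {u v u' v' : τ} {e1 e2 : Finset σ} {x : σ}
    (he1 : e1 ∈ E) (he2 : e2 ∈ E) (h12 : e1 ≠ e2) (hx1 : x ∈ e1) (hx2 : x ∈ e2)
    (hx : 4 ≤ dg E x) (hu : ∀ i, j i ≠ u) (hv : ∀ i, j i ≠ v) (hu' : ∀ i, j i ≠ u')
    (hv' : ∀ i, j i ≠ v') (d1 : u ≠ v) (d2 : u ≠ u') (d3 : u ≠ v') (d4 : v ≠ u') (d5 : v ≠ v')
    (d6 : u' ≠ v') :
    occ (newE j u v u' v' ((E.erase e1).erase e2) e1 e2 x) < occ E := by
  have hS := occ_eq E (E.biUnion id) (fun e he i hi => Finset.mem_biUnion.mpr ⟨e, he, hi⟩)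
  have hmem : ∀ e ∈ E, ∀ i ∈ e, j i ∈ (E.biUnion id).map j := fun e he i hi =>
    Finset.mem_map_of_mem _ (Finset.mem_biUnion.mpr ⟨e, he, hi⟩)
  have hS' := occ_eq (newE j u v u' v' ((E.erase e1).erase e2) e1 e2 x)
    ((E.biUnion id).map j ∪ {u, v, u', v'}) (by
      intro a ha t ht
      unfold newE at ha
      rw [Finset.mem_insert, Finset.mem_insert, Finset.mem_insert, Finset.mem_insert,
        Finset.mem_insert, mem_mapE] at ha
      rw [Finset.mem_union]
      rcases ha with rfl | rfl | rfl | rfl | rfl | ⟨e, he, rfl⟩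
      · right
        simp only [Finset.mem_insert, Finset.mem_singleton] at ht ⊢
        tauto
      · rcases Finset.mem_insert.mp ht with rfl | ht
        · right; simp
        · left
          obtain ⟨i, hi, rfl⟩ := Finset.mem_map.mp ht
          exact hmem e1 he1 i (Finset.mem_of_mem_erase hi)
      · rcases Finset.mem_insert.mp ht with rfl | ht
        · right; simp
        · left
          obtain ⟨i, hi, rfl⟩ := Finset.mem_map.mp ht
          exact hmem e2 he2 i (Finset.mem_of_mem_erase hi)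
      · right
        simp only [Finset.mem_insert, Finset.mem_singleton] at ht ⊢
        tauto
      · simp only [Finset.mem_insert, Finset.mem_singleton] at ht
        rcases ht with rfl | rfl | rfl
        · right; simp
        · right; simp
        · left; exact hmem e1 he1 x hx1
      · left
        obtain ⟨i, hi, rfl⟩ := Finset.mem_map.mp ht
        exact hmem e (Finset.mem_of_mem_erase (Finset.mem_of_mem_erase he)) i hi)
  rw [hS', hS]
  have hle := dg_newE_le j ((E.erase e1).erase e2) (u := u) (v := v) (u' := u') (v' := v')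
    (e1 := e1) (e2 := e2) (x := x)
  -- new vertices
  have hnew : ∑ t ∈ ({u, v, u', v'} : Finset τ),
      (dg (newE j u v u' v' ((E.erase e1).erase e2) e1 e2 x) t - 3) = 0 := by
    rw [Finset.sum_eq_zero_iff]
    intro t ht
    have h0 := hle t
    have hz : dg (mapE j ((E.erase e1).erase e2)) t = 0 := by
      apply dg_mapE_zero
      intro i
      simp only [Finset.mem_insert, Finset.mem_singleton] at ht
      rcases ht with rfl | rfl | rfl | rfl
      · exact hu i
      · exact hv i
      · exact hu' i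
      · exact hv' i
    rw [hz] at h0
    simp only [Finset.mem_insert, Finset.mem_singleton] at ht h0
    rcases ht with rfl | rfl | rfl | rfl
    · simp only [d1, d2, d3, (hu x).symm, notMem_map' j hu, or_false, or_self, if_false,
        if_true] at h0
      omega
    · simp only [d1.symm, d4, d5, (hv x).symm, notMem_map' j hv, or_false, or_self, if_false,
        if_true, or_true, false_or] at h0
      omega
    · simp only [d2.symm, d4.symm, d6, (hu' x).symm, notMem_map' j hu', or_false, or_self,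
        if_false, if_true, true_or] at h0
      omega
    · simp only [d3.symm, d5.symm, d6.symm, (hv' x).symm, notMem_map' j hv', or_false, or_self,
        if_false, if_true, or_true] at h0
      omega
  -- old vertices
  have hold : ∀ i, dg (newE j u v u' v' ((E.erase e1).erase e2) e1 e2 x) (j i) ≤
      dg ((E.erase e1).erase e2) i + (if i = x then 1 else 0) +
        (if i ∈ e2.erase x then 1 else 0) + (if i ∈ e1.erase x then 1 else 0) := by
    intro i
    have h0 := hle (j i)
    rw [dg_mapE] at h0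
    simp only [Finset.mem_insert, Finset.mem_singleton, hu i, hv i, hu' i, hv' i, false_or,
      Finset.mem_map', or_false, EmbeddingLike.apply_eq_iff_eq, if_false, add_zero] at h0
    exact h0
  rw [Finset.sum_union, hnew, add_zero, Finset.sum_map]
  · refine Finset.sum_lt_sum ?_ ⟨x, Finset.mem_biUnion.mpr ⟨e1, he1, hx1⟩, ?_⟩
    · intro i _
      have a1 := hold i
      have a2 := dg_erase2 he1 he2 h12 i
      by_cases hix : i = x
      · subst hix
        simp only [if_true, Finset.notMem_erase, if_false, hx1, hx2] at a1 a2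
        omega
      · simp only [hix, Finset.mem_erase, ne_eq, not_false_eq_true, true_and, if_false] at a1
        omega
    · have a1 := hold x
      have a2 := dg_erase2 he1 he2 h12 x
      simp only [if_true, Finset.notMem_erase, if_false, hx1, hx2] at a1 a2
      omega
  · rw [Finset.disjoint_left]
    intro t ht ht'
    obtain ⟨i, _, rfl⟩ := Finset.mem_map.mp ht
    simp only [Finset.mem_insert, Finset.mem_singleton, hu i, hv i, hu' i, hv' i,
      or_self] at ht'

/-- the embedding of the old variables -/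
def jj : σ ↪ (σ ⊕ Bool) ⊕ Bool := ⟨fun i => Sum.inl (Sum.inl i), fun a b h => by simpa using h⟩

theorem jj_apply (i : σ) : (jj i : (σ ⊕ Bool) ⊕ Bool) = Sum.inl (Sum.inl i) := rfl

open Classical in
/-- the polynomial identity of the step -/
theorem step_identity {e1 e2 : Finset σ} {x : σ} (h1 : e1 ∈ E) (h2 : e2 ∈ E) (h12 : e1 ≠ e2)
    (hx1 : x ∈ e1) (hx2 : x ∈ e2) :
    shear 1 (X (Sum.inr false) * X (Sum.inl x)) (stab k
      (shear (-(X x)) (∏ i ∈ e1.erase x, X i + ∏ i ∈ e2.erase x, X i) (stab k (hyp E ℓ)))) =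
    hyp (newE jj (Sum.inl (Sum.inr true)) (Sum.inl (Sum.inr false)) (Sum.inr true) (Sum.inr false)
      ((E.erase e1).erase e2) e1 e2 x)
      (ℓ.mapDomain jj + Finsupp.single (Sum.inr false) 1) := by
  rw [shear_stab, shear_stab, hyp_eq, hyp_eq, hl_add, hl_map, hl_single,
    hE_newE jj _ (by simp [jj_apply]) (by simp [jj_apply]) (by simp [jj_apply]) (by simp) (by simp)
      (by simp) (by simp) (by simp) (by simp) hx1 hx2 h12, hE_split h1 h2 h12,
    ← Finset.mul_prod_erase e1 _ hx1, ← Finset.mul_prod_erase e2 _ hx2]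
  have hj : ∀ g : MvPolynomial σ k, rename jj g = rename Sum.inl (rename Sum.inl g) := by
    intro g
    rw [rename_rename]
    rfl
  simp only [hj, map_add, map_mul, map_neg, rename_X, map_one, jj_apply]
  ring

open Classical in
theorem occ_decr (hT : Tri κ E) (h : occ E ≠ 0) :
    ∃ (a1 : MvPolynomial (σ ⊕ Bool) k ≃ₐ[k] MvPolynomial (σ ⊕ Bool) k)
      (a2 : MvPolynomial ((σ ⊕ Bool) ⊕ Bool) k ≃ₐ[k] MvPolynomial ((σ ⊕ Bool) ⊕ Bool) k)
      (κ' : (σ ⊕ Bool) ⊕ Bool → Fin 3) (E' : Finset (Finset ((σ ⊕ Bool) ⊕ Bool)))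
      (ℓ' : ((σ ⊕ Bool) ⊕ Bool) →₀ k), Tri κ' E' ∧
      a2 (stab k (a1 (stab k (hyp E ℓ)))) = hyp E' ℓ' ∧ occ E' < occ E := by
  obtain ⟨x, hx, hdx⟩ : ∃ x ∈ E.biUnion id, 4 ≤ dg E x := by
    unfold occ at h
    obtain ⟨x, hx, hx'⟩ := Finset.exists_ne_zero_of_sum_ne_zero h
    exact ⟨x, hx, by unfold dg; omega⟩
  obtain ⟨e1, h1, e2, h2, h12⟩ := Finset.one_lt_card.mp
    (show 1 < (E.filter (fun e => x ∈ e)).card by unfold dg at hdx; omega)
  obtain ⟨he1, hx1⟩ := Finset.mem_filter.mp h1
  obtain ⟨he2, hx2⟩ := Finset.mem_filter.mp h2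
  obtain ⟨cv, cu', hcv, hcu', hcc⟩ := exists_colour2 (κ x)
  let κ' : (σ ⊕ Bool) ⊕ Bool → Fin 3 := Sum.elim (Sum.elim κ (fun b => if b then κ x else cv))
    (fun b => if b then cu' else κ x)
  refine ⟨_, _, κ', _, _, ?_, step_identity he1 he2 h12 hx1 hx2, ?_⟩
  · exact tri_newE jj hT he1 he2 hx1 hx2 (by simp [jj_apply]) (fun i => rfl) rfl hcv hcu' hcc rfl
  · exact occ_newE_lt jj he1 he2 h12 hx1 hx2 hdx (by simp [jj_apply]) (by simp [jj_apply])
      (by simp [jj_apply]) (by simp [jj_apply]) (by simp) (by simp) (by simp) (by simp) (by simp)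
      (by simp)

end step

end Pool.Agent.H70.Mono
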