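import Mathlib

/-!
# Definitions for project MONO (the motivic monodromy conjecture, MP_432c1b_ag)

* `IsCons k X`: `X ⊆ ℂ^ι` is constructible and defined over `k ⊆ ℂ`;
* `K0 k`: the Grothendieck ring of varieties over `k`, presented by classes of constructible sets
  defined over `k`, with the relations: additivity for disjoint unions, invariance under bijections
  given by polynomial maps over `k`, products, the class of a point is one;
* `L k`: the class of the affine line, `M k = K0 k [L⁻¹]`, `mot X` the class of `X` in `M k`;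
* `arc φ j`: the `j`-th coordinate of the truncated arc with coefficients `φ`;
* `Y k N c f`: the truncated arcs `φ mod t^N` with `f(φ) ≡ c t^(N-1) mod t^N`;
* `Zmot k f`: the motivic zeta function;
* `RS k S`: the subalgebra generated by `T` and the inverses of `1 - L^a T^b`, `(a,b) ∈ S`;
* `DiffOps`, `IsBS`, `IsRoot`: differential operators, functional equations, roots of the
  Bernstein-Sato polynomial;
* `stab k f = f + u v`.
-/

set_option autoImplicit false

namespace Pool.Agent.H70.Mono

open MvPolynomial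

section KZero

variable (k : Type) [Field k] [Algebra k ℂ]

/-- constructible subsets of `ℂ^ι` defined over `k` -/
inductive IsCons {ι : Type} : Set (ι → ℂ) → Prop
  | zero (p : MvPolynomial ι k) : IsCons {x | aeval x p = 0}
  | compl {X : Set (ι → ℂ)} : IsCons X → IsCons Xᶜ
  | inter {X Y : Set (ι → ℂ)} : IsCons X → IsCons Y → IsCons (X ∩ Y)

/-- constructible sets defined over `k`, in some finite dimensional affine space -/
structure CSet : Type 1 where
  ι : Type
  fin : Finite ι
  X : Set (ι → ℂ)
  cons : IsCons k X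

/-- the defining relations of the Grothendieck ring -/
inductive Rel : MvPolynomial (CSet k) ℤ → Prop
  /-- disjoint unions -/
  | add {ι : Type} (hι : Finite ι) (A B : Set (ι → ℂ)) (hA : IsCons k A) (hB : IsCons k B)
      (hAB : IsCons k (A ∪ B)) (h : Disjoint A B) :
      Rel (X ⟨ι, hι, A ∪ B, hAB⟩ - X ⟨ι, hι, A, hA⟩ - X ⟨ι, hι, B, hB⟩)
  /-- bijective polynomial maps over `k` -/
  | bij (A B : CSet k) (p : B.ι → MvPolynomial A.ι k)
      (h : Set.BijOn (fun x j => aeval x (p j)) A.X B.X) : Rel (X A - X B)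
  /-- products -/
  | mul (A B : CSet k) (hAB : IsCons k {φ : A.ι ⊕ B.ι → ℂ |
      (fun i => φ (Sum.inl i)) ∈ A.X ∧ (fun i => φ (Sum.inr i)) ∈ B.X}) (hf : Finite (A.ι ⊕ B.ι)) :
      Rel (X ⟨A.ι ⊕ B.ι, hf, {φ | (fun i => φ (Sum.inl i)) ∈ A.X ∧ (fun i => φ (Sum.inr i)) ∈ B.X},
        hAB⟩ - X A * X B)
  /-- the point -/
  | one (h : IsCons k (Set.univ : Set (Empty → ℂ))) :
      Rel (X ⟨Empty, inferInstance, Set.univ, h⟩ - 1)

/-- the Grothendieck ring of varieties over `k` -/
abbrev K0 : Type 1 := MvPolynomial (CSet k) ℤ ⧸ Ideal.span {r | Rel k r}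

open Classical in
/-- the class of a constructible set (and `0` for other sets) -/
noncomputable def cl {ι : Type} [Finite ι] (A : Set (ι → ℂ)) : K0 k :=
  if h : IsCons k A then Ideal.Quotient.mk _ (X ⟨ι, inferInstance, A, h⟩) else 0

/-- the class of the affine line -/
noncomputable def L : K0 k := cl k (Set.univ : Set (Unit → ℂ))

/-- the localised Grothendieck ring -/
abbrev M : Type 1 := Localization.Away (L k)

/-- the class of the affine line as a unit of `M k` -/
noncomputable def Lu : (M k)ˣ := (IsLocalization.Away.algebraMap_isUnit (S := M k) (L k)).unit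

/-- the class of a constructible set in `M k` -/
noncomputable def mot {ι : Type} [Finite ι] (A : Set (ι → ℂ)) : M k :=
  algebraMap (K0 k) (M k) (cl k A)

end KZero

section Arcs

variable (k : Type) [Field k] [Algebra k ℂ] {σ : Type}

/-- truncated arcs -/
noncomputable def arc {N : ℕ} (φ : σ × Fin N → ℂ) (j : σ) : PowerSeries ℂ :=
  ∑ l : Fin N, PowerSeries.C (φ (j, l)) * PowerSeries.X ^ (l : ℕ)

/-- `f(φ(t))` -/
noncomputable def arcEval {N : ℕ} (φ : σ × Fin N → ℂ) (f : MvPolynomial σ k) : PowerSeries ℂ :=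
  aeval (arc φ) f

/-- the truncated arcs `φ mod t^N` with `f(φ) ≡ c t^(N-1) mod t^N` -/
def Y (N : ℕ) (c : k) (f : MvPolynomial σ k) : Set (σ × Fin N → ℂ) :=
  {φ | ∀ l < N, PowerSeries.coeff l (arcEval k φ f) = if l + 1 = N then algebraMap k ℂ c else 0}

/-- the motivic zeta function: the coefficient of `T^d` is `[X_{d,1}] L^{-md}` -/
noncomputable def Zmot [Finite σ] (f : MvPolynomial σ k) : PowerSeries (M k) :=
  PowerSeries.mk fun d => mot k (Y k (d + 1) 1 f) * ↑(Lu k ^ (-((Nat.card σ * d : ℕ) : ℤ)))

/-- the auxiliary series of contact loci: the coefficient of `T^d` is `[C_d] L^{-md}` -/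
noncomputable def Pmot [Finite σ] (f : MvPolynomial σ k) : PowerSeries (M k) :=
  PowerSeries.mk fun d => mot k (Y k d 0 f) * ↑(Lu k ^ (-((Nat.card σ * d : ℕ) : ℤ)))

/-- `1 - L^a T^b` -/
noncomputable def den (p : ℤ × ℕ) : PowerSeries (M k) :=
  1 - PowerSeries.C (↑(Lu k ^ p.1) : M k) * PowerSeries.X ^ p.2

/-- the algebra `M_k[T, 1/(1 - L^a T^b)]`, `(a,b) ∈ S` -/
noncomputable def RS (S : Set (ℤ × ℕ)) : Subalgebra (M k) (PowerSeries (M k)) :=
  Algebra.adjoin (M k) ({PowerSeries.X} ∪ {g | ∃ p ∈ S, g * den k p = 1})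

end Arcs

section BS

variable (k : Type) [Field k] {σ : Type}

variable (σ) in
/-- the algebra of differential operators on `k[x]`, generated by the multiplications and the
derivations (the Weyl algebra) -/
noncomputable def DiffOps : Subalgebra k (Module.End k (MvPolynomial σ k)) :=
  Algebra.adjoin k ({T | ∃ g : MvPolynomial σ k, T = LinearMap.mulLeft k g} ∪
    {T | ∃ δ : Derivation k (MvPolynomial σ k) (MvPolynomial σ k), T = (δ : _ →ₗ[k] _)})

/-- `b` satisfies a functional equation `P(s) f^{s+1} = b(s) f^s` with a differential operator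
`P(s)` depending polynomially on `s`; as both sides are polynomial in `s`, this means that it holds
for all natural numbers `s = n` -/
def IsBS (f : MvPolynomial σ k) (b : Polynomial k) : Prop :=
  ∃ P : Polynomial (DiffOps k σ), ∀ n : ℕ,
    ((P.eval (n : DiffOps k σ) : DiffOps k σ) : Module.End k (MvPolynomial σ k)) (f ^ (n + 1)) =
      b.eval (n : k) • f ^ n

/-- `α` is a root of the Bernstein-Sato polynomial of `f`, i.e. of all polynomials satisfying a
functional equation -/
def IsRoot (f : MvPolynomial σ k) (α : ℚ) : Prop :=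
  ∀ b : Polynomial k, IsBS k f b → b.eval (α : k) = 0

/-- `exp(2πi a/b)` is a monodromy eigenvalue of `f` (Kashiwara, Malgrange: the eigenvalues are the
`exp(2πi α)`, `α` a root of the Bernstein-Sato polynomial, which has the root `-1`) -/
def Eig (f : MvPolynomial σ k) (a : ℤ) (b : ℕ) : Prop :=
  ∃ α : ℚ, (α = -1 ∨ IsRoot k f α) ∧ ∃ z : ℤ, α - a / b = z

end BS

section Conj

variable (k : Type) [Field k] [Algebra k ℂ] {σ : Type}

/-- the motivic monodromy conjecture for `f` -/
def MC [Finite σ] (f : MvPolynomial σ k) : Prop :=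
  ∃ S : Finset (ℤ × ℕ), (∀ p ∈ S, p.1 < 0 ∧ 0 < p.2) ∧ Zmot k f ∈ RS k (S : Set (ℤ × ℕ)) ∧
    ∀ p ∈ S, Eig k f p.1 p.2

/-- the motivic monodromy conjecture for `f` without the condition `a < 0` on the set `S` -/
def MC' [Finite σ] (f : MvPolynomial σ k) : Prop :=
  ∃ S : Finset (ℤ × ℕ), (∀ p ∈ S, 0 < p.2) ∧ Zmot k f ∈ RS k (S : Set (ℤ × ℕ)) ∧
    ∀ p ∈ S, Eig k f p.1 p.2

variable {k} in
/-- there is a colouring of the variables with three colours such that every monomial of `f` has
at most one variable of each colour, to the first power -/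
def TriAffine (f : MvPolynomial σ k) : Prop :=
  ∃ κ : σ → Fin 3, ∀ m ∈ f.support, (∀ i, m i ≤ 1) ∧ ∀ i j, i ≠ j → κ i = κ j → m i = 0 ∨ m j = 0

/-- `f + u v` -/
noncomputable def stab (f : MvPolynomial σ k) : MvPolynomial (σ ⊕ Bool) k :=
  rename Sum.inl f + X (Sum.inr true) * X (Sum.inr false)

end Conj

end Pool.Agent.H70.Mono
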