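import Pool.Agent.H70.Mono.Defs2

/-!
# Module D of project MONO: Bernstein-Sato polynomials of `f` and `f + u v`
-/

set_option autoImplicit false

namespace Pool.Agent.H70.Mono

open MvPolynomial

section D

variable {k : Type} [Field k] {σ τ : Type}

/-! ### D1: isomorphisms -/

theorem DiffOps_conj (e : MvPolynomial σ k ≃ₐ[k] MvPolynomial τ k)
    {T : Module.End k (MvPolynomial σ k)} (hT : T ∈ DiffOps k σ) :
    e.toLinearEquiv.conjAlgEquiv k T ∈ DiffOps k τ := by
  unfold DiffOps at hT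
  induction hT using Algebra.adjoin_induction with
  | mem T hT =>
    apply Algebra.subset_adjoin
    rcases hT with ⟨g, rfl⟩ | ⟨δ, rfl⟩
    · left
      refine ⟨e g, ?_⟩
      refine LinearMap.ext fun x => ?_
      simp
    · right
      refine ⟨Derivation.mk' (e.toLinearEquiv.toLinearMap ∘ₗ (δ : _ →ₗ[k] _) ∘ₗ
        e.symm.toLinearEquiv.toLinearMap) ?_, ?_⟩
      · intro x y
        simp [mul_comm]
      · refine LinearMap.ext fun x => ?_
        simp
  | algebraMap r =>
    rw [AlgEquiv.commutes]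
    exact Subalgebra.algebraMap_mem _ r
  | add x y _ _ hx hy =>
    rw [map_add]
    exact Subalgebra.add_mem _ hx hy
  | mul x y _ _ hx hy =>
    rw [map_mul]
    exact Subalgebra.mul_mem _ hx hy

theorem IsBS_equiv (e : MvPolynomial σ k ≃ₐ[k] MvPolynomial τ k) {f : MvPolynomial σ k}
    {b : Polynomial k} (h : IsBS k f b) : IsBS k (e f) b := by
  obtain ⟨P, hP⟩ := h
  let φ : Module.End k (MvPolynomial σ k) →ₐ[k] Module.End k (MvPolynomial τ k) :=
    (e.toLinearEquiv.conjAlgEquiv k : _ →ₐ[k] _)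
  let ψ : DiffOps k σ →ₐ[k] DiffOps k τ := (φ.comp (DiffOps k σ).val).codRestrict (DiffOps k τ)
    (fun T => DiffOps_conj e T.2)
  refine ⟨P.map (ψ : DiffOps k σ →+* DiffOps k τ), fun n => ?_⟩
  rw [Polynomial.eval_natCast_map]
  have h1 := congrArg e (hP n)
  rw [map_smul, map_pow e] at h1
  rw [← h1]
  have : ((ψ (P.eval (n : DiffOps k σ)) : DiffOps k τ) : Module.End k (MvPolynomial τ k)) =
      e.toLinearEquiv.conjAlgEquiv k ((P.eval (n : DiffOps k σ) : DiffOps k σ) :
        Module.End k (MvPolynomial σ k)) := rfl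
  have h2 : (((ψ : DiffOps k σ →+* DiffOps k τ) (P.eval (n : DiffOps k σ)) : DiffOps k τ) :
      Module.End k (MvPolynomial τ k)) = _ := this
  rw [h2]
  simp

/-! ### D2a: extension of operators -/

/-- the extension of a derivation, zero on the new variables -/
noncomputable def extDer (δ : Derivation k (MvPolynomial σ k) (MvPolynomial σ k)) :
    Derivation k (MvPolynomial (σ ⊕ Bool) k) (MvPolynomial (σ ⊕ Bool) k) :=
  mkDerivation k (Sum.elim (fun j => rename Sum.inl (δ (X j))) (fun _ => 0))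

theorem extDer_inl (δ : Derivation k (MvPolynomial σ k) (MvPolynomial σ k))
    (g : MvPolynomial σ k) : extDer δ (rename Sum.inl g) = rename Sum.inl (δ g) := by
  induction g using MvPolynomial.induction_on with
  | C a =>
    rw [rename_C]
    have h1 : extDer δ (C a) = 0 := by
      rw [← algebraMap_eq]; exact Derivation.map_algebraMap _ _
    have h2 : δ (C a) = 0 := by
      rw [← algebraMap_eq]; exact Derivation.map_algebraMap _ _
    rw [h1, h2, map_zero]
  | add p q hp hq => rw [map_add, map_add, hp, hq, map_add, map_add]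
  | mul_X p i hp =>
    rw [map_mul, rename_X, Derivation.leibniz, hp, Derivation.leibniz, map_add, smul_eq_mul,
      smul_eq_mul, smul_eq_mul, smul_eq_mul, map_mul, map_mul, rename_X]
    congr 1
    simp [extDer]

theorem extDer_inr (δ : Derivation k (MvPolynomial σ k) (MvPolynomial σ k))
    (h : MvPolynomial Bool k) : extDer δ (rename Sum.inr h) = 0 := by
  induction h using MvPolynomial.induction_on with
  | C a =>
    rw [rename_C, ← algebraMap_eq]; exact Derivation.map_algebraMap _ _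
  | add p q hp hq => rw [map_add, map_add, hp, hq, add_zero]
  | mul_X p i hp =>
    rw [map_mul, rename_X, Derivation.leibniz, hp]
    simp [extDer]

theorem exists_ext' {T : Module.End k (MvPolynomial σ k)} (hT : T ∈ DiffOps k σ) :
    ∃ T' ∈ DiffOps k (σ ⊕ Bool), ∀ (g : MvPolynomial σ k) (h : MvPolynomial Bool k),
      T' (rename Sum.inl g * rename Sum.inr h) = rename Sum.inl (T g) * rename Sum.inr h := by
  unfold DiffOps at hT
  induction hT using Algebra.adjoin_induction with
  | mem T hT =>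
    rcases hT with ⟨g, rfl⟩ | ⟨δ, rfl⟩
    · refine ⟨LinearMap.mulLeft k (rename Sum.inl g), Algebra.subset_adjoin (Or.inl ⟨_, rfl⟩),
        fun g' h => ?_⟩
      simp [mul_assoc]
    · refine ⟨(extDer δ : _ →ₗ[k] _), Algebra.subset_adjoin (Or.inr ⟨_, rfl⟩), fun g h => ?_⟩
      rw [Derivation.coeFn_coe, Derivation.leibniz, extDer_inl, extDer_inr, smul_zero, zero_add,
        smul_eq_mul, mul_comm]
      rfl
  | algebraMap r =>
    refine ⟨algebraMap k _ r, Subalgebra.algebraMap_mem _ r, fun g h => ?_⟩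
    simp [Module.algebraMap_end_apply]
  | add x y _ _ hx hy =>
    obtain ⟨x', hx', hx⟩ := hx
    obtain ⟨y', hy', hy⟩ := hy
    refine ⟨x' + y', Subalgebra.add_mem _ hx' hy', fun g h => ?_⟩
    rw [LinearMap.add_apply, hx, hy, LinearMap.add_apply, map_add, add_mul]
  | mul x y _ _ hx hy =>
    obtain ⟨x', hx', hx⟩ := hx
    obtain ⟨y', hy', hy⟩ := hy
    refine ⟨x' * y', Subalgebra.mul_mem _ hx' hy', fun g h => ?_⟩
    rw [Module.End.mul_apply, hy, hx, Module.End.mul_apply]

/-- D2a: extension of operators to more variables -/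
theorem exists_ext (D : DiffOps k σ) : ∃ D' : DiffOps k (σ ⊕ Bool),
    ∀ (g : MvPolynomial σ k) (h : MvPolynomial Bool k),
      (D' : Module.End k (MvPolynomial (σ ⊕ Bool) k)) (rename Sum.inl g * rename Sum.inr h) =
        rename Sum.inl ((D : Module.End k (MvPolynomial σ k)) g) * rename Sum.inr h := by
  obtain ⟨T', h1, h2⟩ := exists_ext' D.2
  exact ⟨⟨T', h1⟩, h2⟩

/-! ### D2: the functional equation of `f + u v` -/

/-- `∂_u` -/
noncomputable def du (b : Bool) : DiffOps k (σ ⊕ Bool) :=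
  ⟨(pderiv (Sum.inr b) : Derivation k (MvPolynomial (σ ⊕ Bool) k) _), by
    classical
    exact Algebra.subset_adjoin (Or.inr ⟨_, rfl⟩)⟩

/-- `θ = u ∂_u` -/
noncomputable def th : DiffOps k (σ ⊕ Bool) :=
  ⟨LinearMap.mulLeft k (X (Sum.inr true)), Algebra.subset_adjoin (Or.inl ⟨_, rfl⟩)⟩ * du true

/-- `g (u v)^j` -/
noncomputable def ee (j : ℕ) (g : MvPolynomial σ k) : MvPolynomial (σ ⊕ Bool) k :=
  rename Sum.inl g * (X (Sum.inr true) * X (Sum.inr false)) ^ j

theorem ee_eq (j : ℕ) (g : MvPolynomial σ k) :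
    ee j g = rename Sum.inl g * rename Sum.inr ((X true * X false) ^ j) := by
  simp [ee]

theorem ee_add (j : ℕ) (g h : MvPolynomial σ k) : ee j (g + h) = ee j g + ee j h := by
  simp [ee, add_mul]

theorem ee_smul (j : ℕ) (c : k) (g : MvPolynomial σ k) : ee j (c • g) = c • ee j g := by
  simp [ee]

theorem pderiv_inr_inl (b : Bool) (g : MvPolynomial σ k) :
    pderiv (Sum.inr b : σ ⊕ Bool) (rename Sum.inl g) = 0 := by
  classical
  induction g using MvPolynomial.induction_on with
  | C a => simp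
  | add p q hp hq => rw [map_add, map_add, hp, hq, add_zero]
  | mul_X p i hp =>
    rw [map_mul, rename_X, Derivation.leibniz, hp, pderiv_X_of_ne (by simp)]
    simp

theorem th_apply (x : MvPolynomial (σ ⊕ Bool) k) :
    ((th : DiffOps k (σ ⊕ Bool)) : Module.End k (MvPolynomial (σ ⊕ Bool) k)) x =
      X (Sum.inr true) * pderiv (Sum.inr true) x := rfl

theorem th_ee (j : ℕ) (g : MvPolynomial σ k) :
    ((th : DiffOps k (σ ⊕ Bool)) : Module.End k (MvPolynomial (σ ⊕ Bool) k)) (ee j g) =
      (j : k) • ee j g := by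
  classical
  rw [th_apply, ee, Derivation.leibniz, pderiv_inr_inl, smul_zero, add_zero,
    Derivation.leibniz_pow, Derivation.leibniz, pderiv_X_self,
    pderiv_X_of_ne (show (Sum.inr false : σ ⊕ Bool) ≠ Sum.inr true by simp)]
  rcases j with _ | j
  · simp
  · rw [show j + 1 - 1 = j from rfl, pow_succ]
    simp only [smul_eq_mul, mul_one, zero_add, nsmul_eq_mul, Nat.cast_smul_eq_nsmul,
      mul_zero]
    ring

/-- evaluation at a natural number -/
noncomputable def evn {R : Type*} [Semiring R] (n : ℕ) : Polynomial R →+* R :=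
  Polynomial.eval₂RingHom' (RingHom.id R) (n : R) (fun a => (Nat.cast_commute n a).symm)

theorem evn_apply {R : Type*} [Semiring R] (n : ℕ) (p : Polynomial R) :
    evn n p = p.eval (n : R) := rfl

theorem evn_C {R : Type*} [Semiring R] (n : ℕ) (a : R) : evn n (Polynomial.C a) = a := by
  rw [evn_apply, Polynomial.eval_C]

theorem evn_X {R : Type*} [Semiring R] (n : ℕ) :
    evn n (Polynomial.X : Polynomial R) = n := by
  rw [evn_apply, Polynomial.eval_X]

/-- the action of an operator -/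
noncomputable abbrev ac (T : DiffOps k τ) (x : MvPolynomial τ k) : MvPolynomial τ k :=
  (T : Module.End k (MvPolynomial τ k)) x

/-- `-θ` -/
noncomputable def nt : DiffOps k (σ ⊕ Bool) := (-1 : k) • th

theorem ac_mul (S T : DiffOps k τ) (x : MvPolynomial τ k) : ac (S * T) x = ac S (ac T x) := rfl

theorem ac_add (S T : DiffOps k τ) (x : MvPolynomial τ k) : ac (S + T) x = ac S x + ac T x := rfl

theorem ac_one (x : MvPolynomial τ k) : ac (1 : DiffOps k τ) x = x := rfl

theorem ac_sum {J : Type*} (s : Finset J) (S : J → DiffOps k τ) (x : MvPolynomial τ k) :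
    ac (∑ i ∈ s, S i) x = ∑ i ∈ s, ac (S i) x := by
  simp [ac]

theorem ac_nat (n : ℕ) (x : MvPolynomial τ k) : ac (n : DiffOps k τ) x = (n : k) • x := by
  simp [ac, Nat.cast_smul_eq_nsmul]

theorem ac_smul (S : DiffOps k τ) (c : k) (x : MvPolynomial τ k) :
    ac S (c • x) = c • ac S x := map_smul _ _ _

theorem ac_map_sum {J : Type*} (s : Finset J) (S : DiffOps k τ) (x : J → MvPolynomial τ k) :
    ac S (∑ i ∈ s, x i) = ∑ i ∈ s, ac S (x i) := map_sum _ _ _

theorem ac_nt (j : ℕ) (g : MvPolynomial σ k) :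
    ac (nt : DiffOps k (σ ⊕ Bool)) (ee j g) = (-(j : k)) • ee j g := by
  have h : ac (nt : DiffOps k (σ ⊕ Bool)) (ee j g) = (-1 : k) • ac th (ee j g) := rfl
  rw [h, show ac th (ee j g) = _ from th_ee j g, smul_smul, neg_one_mul]

theorem ac_sub_th (n j : ℕ) (g : MvPolynomial σ k) :
    ac ((n : DiffOps k (σ ⊕ Bool)) + nt) (ee j g) = ((n : k) - j) • ee j g := by
  rw [ac_add, ac_nat, ac_nt, ← add_smul, sub_eq_add_neg]

theorem ac_sub_th_pow (n j i : ℕ) (g : MvPolynomial σ k) :
    ac (((n : DiffOps k (σ ⊕ Bool)) + nt) ^ i) (ee j g) = ((n : k) - j) ^ i • ee j g := by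
  induction i with
  | zero => simp [ac]
  | succ i ih => rw [pow_succ', ac_mul, ih, ac_smul, ac_sub_th, smul_smul, pow_succ]

theorem ac_aeval_sub_th (n j : ℕ) (b : Polynomial k) (g : MvPolynomial σ k) :
    ac (Polynomial.aeval ((n : DiffOps k (σ ⊕ Bool)) + nt) b) (ee j g) =
      b.eval ((n : k) - j) • ee j g := by
  rw [Polynomial.aeval_eq_sum_range, Polynomial.eval_eq_sum_range, ac_sum, Finset.sum_smul]
  refine Finset.sum_congr rfl fun i _ => ?_
  have : ac (b.coeff i • ((n : DiffOps k (σ ⊕ Bool)) + nt) ^ i) (ee j g) =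
      b.coeff i • ac (((n : DiffOps k (σ ⊕ Bool)) + nt) ^ i) (ee j g) := rfl
  rw [this, ac_sub_th_pow, smul_smul]

theorem ac_aeval_nat (n : ℕ) (b : Polynomial k) (x : MvPolynomial τ k) :
    ac (Polynomial.aeval (n : DiffOps k τ) b) x = b.eval (n : k) • x := by
  have h : (n : DiffOps k τ) = algebraMap k (DiffOps k τ) (n : k) := by simp
  rw [h, Polynomial.aeval_algebraMap_apply]
  simp [ac, Module.algebraMap_end_apply]

theorem stab_pow (f : MvPolynomial σ k) (n : ℕ) : stab k f ^ n =
    ∑ j ∈ Finset.range (n + 1), (n.choose j : k) • ee j (f ^ (n - j)) := by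
  rw [stab, add_comm, add_pow]
  refine Finset.sum_congr rfl fun j _ => ?_
  rw [ee, map_pow, Nat.cast_smul_eq_nsmul, nsmul_eq_mul]
  ring

theorem ac_du_du (f : MvPolynomial σ k) (n : ℕ) :
    ac (du true * du false) (stab k f ^ (n + 1)) =
      ((n : k) + 1) • ac (1 + th) (stab k f ^ n) := by
  classical
  have h1 : ∀ x : MvPolynomial (σ ⊕ Bool) k, ac (du false) x = pderiv (Sum.inr false) x :=
    fun x => rfl
  have h2 : ∀ x : MvPolynomial (σ ⊕ Bool) k, ac (du true) x = pderiv (Sum.inr true) x :=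
    fun x => rfl
  have h3 : pderiv (Sum.inr false) (stab k f) = X (Sum.inr true) := by
    rw [stab, map_add, pderiv_inr_inl, zero_add, Derivation.leibniz, pderiv_X_self,
      pderiv_X_of_ne (by simp)]
    simp
  rw [ac_mul, h1, Derivation.leibniz_pow, h3, Nat.add_sub_cancel, ac_add, ac_one,
    show ac th (stab k f ^ n) = _ from th_apply _, h2, map_nsmul, smul_eq_mul, Derivation.leibniz,
    pderiv_X_self]
  rw [show ((n : k) + 1) = ((n + 1 : ℕ) : k) by push_cast; rfl, Nat.cast_smul_eq_nsmul]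
  congr 1
  simp

theorem ac_succ_sub_th (f : MvPolynomial σ k) (n : ℕ) :
    ac ((n : DiffOps k (σ ⊕ Bool)) + 1 + nt) (stab k f ^ (n + 1)) =
      ∑ j ∈ Finset.range (n + 1),
        (((n : k) + 1) * (n.choose j : k)) • ee j (f ^ (n - j + 1)) := by
  have h : (n : DiffOps k (σ ⊕ Bool)) + 1 + nt = ((n + 1 : ℕ) : DiffOps k (σ ⊕ Bool)) + nt := by
    push_cast; rfl
  rw [h, stab_pow, ac_map_sum, Finset.sum_range_succ]
  simp only [ac_smul, ac_sub_th, smul_smul]
  rw [Nat.cast_add_one, sub_self, mul_zero, zero_smul, add_zero]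
  refine Finset.sum_congr rfl fun j hj => ?_
  have hj : j ≤ n := Nat.lt_succ_iff.mp (Finset.mem_range.mp hj)
  have h1 := Nat.choose_mul_succ_eq n j
  have h2 : ((n.choose j : ℕ) : k) * ((n : k) + 1) = ((n + 1).choose j : k) * ((n : k) + 1 - j) := by
    have := congrArg (Nat.cast : ℕ → k) h1
    push_cast [Nat.cast_sub (show j ≤ n + 1 by omega)] at this
    exact this
  rw [show n + 1 - j = n - j + 1 by omega, mul_comm ((n : k) + 1), h2]

/-- D2 -/
theorem IsBS_stab [CharZero k] {f : MvPolynomial σ k} {b : Polynomial k} (h : IsBS k f b) :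
    IsBS k (stab k f) ((Polynomial.X + 1) * b.comp (Polynomial.X + 1)) := by
  obtain ⟨P, hP⟩ := h
  choose E hE using exists_ext (σ := σ) (k := k)
  have hEe : ∀ (D : DiffOps k σ) (j : ℕ) (g : MvPolynomial σ k),
      ac (E D) (ee j g) = ee j (ac D g) := by
    intro D j g
    rw [ee_eq, ee_eq]
    exact hE D g _
  -- the first part
  let P1 : Polynomial (DiffOps k (σ ⊕ Bool)) :=
    ∑ i ∈ P.support, (Polynomial.C (E (P.coeff i)) : Polynomial (DiffOps k (σ ⊕ Bool))) *
      ((Polynomial.X : Polynomial (DiffOps k (σ ⊕ Bool))) +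
        Polynomial.C (nt : DiffOps k (σ ⊕ Bool))) ^ i
  have hP1 : ∀ n j : ℕ, j ≤ n → ∀ g : MvPolynomial σ k,
      ac (evn n P1) (ee j g) = ee j (ac (P.eval ((n - j : ℕ) : DiffOps k σ)) g) := by
    intro n j hj g
    have h1 : evn n P1 = ∑ i ∈ P.support, E (P.coeff i) * ((n : DiffOps k (σ ⊕ Bool)) + nt) ^ i := by
      simp only [P1, map_sum, map_mul, map_pow, map_add, evn_C, evn_X]
    have h2 : P.eval ((n - j : ℕ) : DiffOps k σ) =
        ∑ i ∈ P.support, P.coeff i * ((n - j : ℕ) : DiffOps k σ) ^ i := Polynomial.eval_eq_sum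
    have h3 : ∀ (m i : ℕ) (x : MvPolynomial σ k), ac ((m : DiffOps k σ) ^ i) x =
        (m : k) ^ i • x := by
      intro m i x
      rw [← Nat.cast_pow, ac_nat, Nat.cast_pow]
    have h4 : ∀ (s : Finset ℕ) (x : ℕ → MvPolynomial σ k), ee j (∑ i ∈ s, x i) =
        ∑ i ∈ s, ee j (x i) := by
      intro s x
      simp only [ee, map_sum, Finset.sum_mul]
    rw [h1, h2, ac_sum, ac_sum, h4]
    refine Finset.sum_congr rfl fun i _ => ?_
    rw [ac_mul, ac_sub_th_pow, ac_smul, hEe, ac_mul, h3, ac_smul, ee_smul, Nat.cast_sub hj]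
  -- the quotient
  let ι0 : k →+* Polynomial (Polynomial k) := Polynomial.C.comp Polynomial.C
  let y0 : Polynomial (Polynomial k) := Polynomial.X + Polynomial.C (Polynomial.C (-1) * Polynomial.X)
  obtain ⟨Q0, hQ0⟩ : (Polynomial.X + 1) - y0 ∣
      (b.map ι0).eval (Polynomial.X + 1) - (b.map ι0).eval y0 :=
    Polynomial.sub_dvd_eval_sub _ _ _
  have hy0 : (Polynomial.X + 1) - y0 = 1 + Polynomial.C Polynomial.X := by
    simp only [y0, map_neg, map_one, neg_mul, one_mul]
    ring
  rw [hy0, sub_eq_iff_eq_add] at hQ0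
  let aθ : Polynomial k →+* DiffOps k (σ ⊕ Bool) :=
    ((Polynomial.aeval (th : DiffOps k (σ ⊕ Bool)) : Polynomial k →ₐ[k] _) :
      Polynomial k →+* DiffOps k (σ ⊕ Bool))
  have haθ : aθ (Polynomial.C (-1) * Polynomial.X) = nt := by
    show Polynomial.aeval (th : DiffOps k (σ ⊕ Bool)) (Polynomial.C (-1) * Polynomial.X) = nt
    rw [map_mul, Polynomial.aeval_C, Polynomial.aeval_X, ← Algebra.smul_def]
    rfl
  let Q : Polynomial (DiffOps k (σ ⊕ Bool)) := Q0.map aθ
  have hQ : ∀ n : ℕ, Polynomial.aeval ((n : DiffOps k (σ ⊕ Bool)) + 1) b =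
      evn n Q * (1 + th) + Polynomial.aeval ((n : DiffOps k (σ ⊕ Bool)) + nt) b := by
    intro n
    let Φ : Polynomial (Polynomial k) →+* DiffOps k (σ ⊕ Bool) :=
      (evn n).comp (Polynomial.mapRingHom aθ)
    have hX : Φ Polynomial.X = n := by simp [Φ, evn_X]
    have hC : ∀ c, Φ (Polynomial.C c) = aθ c := fun c => by simp [Φ, evn_C]
    have hCX : Φ (Polynomial.C Polynomial.X) = th := by
      rw [hC]; exact Polynomial.aeval_X _
    have hι : Φ.comp ι0 = algebraMap k (DiffOps k (σ ⊕ Bool)) := by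
      refine RingHom.ext fun r => ?_
      show Φ (Polynomial.C (Polynomial.C r)) = _
      rw [hC]
      exact Polynomial.aeval_C _ _
    have h1 : ∀ y, Φ ((b.map ι0).eval y) = Polynomial.aeval (Φ y) b := by
      intro y
      rw [Polynomial.eval_map, Polynomial.hom_eval₂, hι, Polynomial.aeval_def]
    have h2 := congrArg Φ hQ0
    rw [map_add, h1, h1, map_add, hX, map_one, mul_comm, map_mul, map_add, map_one, hCX] at h2
    rw [h2]
    congr 2
    simp only [y0, map_add, hX, hC, haθ]
  refine ⟨P1 * (Polynomial.X + 1 + Polynomial.C nt) + Q * Polynomial.C (du true * du false),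
    fun n => ?_⟩
  have h0 : ∀ T : Polynomial (DiffOps k (σ ⊕ Bool)), T.eval (n : DiffOps k (σ ⊕ Bool)) =
    evn n T := fun _ => rfl
  show ac _ _ = _
  rw [h0, map_add, map_mul, map_mul, map_add, map_add, map_one, evn_X, evn_C, evn_C, ac_add,
    ac_mul, ac_succ_sub_th, ac_map_sum]
  have hA : ∀ j ∈ Finset.range (n + 1), ac (evn n P1)
      ((((n : k) + 1) * (n.choose j : k)) • ee j (f ^ (n - j + 1))) =
      ((n : k) + 1) • (n.choose j : k) • b.eval ((n : k) - j) • ee j (f ^ (n - j)) := by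
    intro j hj
    have hj : j ≤ n := Nat.lt_succ_iff.mp (Finset.mem_range.mp hj)
    rw [ac_smul, hP1 n j hj, show ac (P.eval ((n - j : ℕ) : DiffOps k σ)) (f ^ (n - j + 1)) = _ from
      hP (n - j), ee_smul, Nat.cast_sub hj, mul_smul]
  have hB : ac (Polynomial.aeval ((n : DiffOps k (σ ⊕ Bool)) + nt) b) (stab k f ^ n) =
      ∑ j ∈ Finset.range (n + 1), (n.choose j : k) • b.eval ((n : k) - j) • ee j (f ^ (n - j)) := by
    rw [stab_pow, ac_map_sum]
    refine Finset.sum_congr rfl fun j _ => ?_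
    rw [ac_smul, ac_aeval_sub_th]
  have hC : ac (Polynomial.aeval ((n : DiffOps k (σ ⊕ Bool)) + 1) b) (stab k f ^ n) =
      b.eval ((n : k) + 1) • stab k f ^ n := by
    have := ac_aeval_nat (τ := σ ⊕ Bool) (n + 1) b (stab k f ^ n)
    push_cast at this
    exact this
  have hD := congrArg (fun T => ac T (stab k f ^ n)) (hQ n)
  simp only [ac_add (evn n Q * (1 + th)), hB, hC] at hD
  rw [Finset.sum_congr rfl hA, ac_mul, ac_du_du, ac_smul, ← ac_mul, ← Finset.smul_sum, ← smul_add,
    add_comm (Finset.sum _ _), ← hD, smul_smul]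
  congr 1
  simp [Polynomial.eval_comp]

/-- D3 -/
theorem IsRoot_stab [CharZero k] {f : MvPolynomial σ k} {α : ℚ} (h : IsRoot k (stab k f) α) :
    α = -1 ∨ IsRoot k f (α + 1) := by
  by_cases h1 : α = -1
  · exact Or.inl h1
  · right
    intro b hb
    have h2 := h _ (IsBS_stab hb)
    rw [Polynomial.eval_mul, Polynomial.eval_comp, mul_eq_zero] at h2
    rcases h2 with h2 | h2
    · exfalso
      apply h1
      have h3 : ((α + 1 : ℚ) : k) = 0 := by
        push_cast
        simpa using h2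
      have h4 : α + 1 = 0 := by exact_mod_cast h3
      linarith
    · have h5 : ((α + 1 : ℚ) : k) = (α : k) + 1 := by push_cast; rfl
      rw [h5]
      simpa using h2

end D

end Pool.Agent.H70.Mono
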