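import Pool.Agent.H97.Mono.E

/-!
# Definitions for the strong normal form of project MONO

`hyp E ℓ = ∑_{e ∈ E} ∏_{i ∈ e} X_i + ∑_i ℓ_i X_i`, `E` a hypergraph, `ℓ` a linear form.
-/

set_option autoImplicit false

namespace Pool.Agent.H70.Mono

open MvPolynomial

section

variable {k : Type} [Field k] {σ : Type}

/-- the polynomial of a hypergraph, plus a linear form -/
noncomputable def hyp (E : Finset (Finset σ)) (ℓ : σ →₀ k) : MvPolynomial σ k :=
  ∑ e ∈ E, ∏ i ∈ e, X i + ℓ.sum fun i c => C c * X i

/-- the edges have at least two vertices, of different colours -/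
def Tri (κ : σ → Fin 3) (E : Finset (Finset σ)) : Prop :=
  ∀ e ∈ E, 2 ≤ e.card ∧ Set.InjOn κ (e : Set σ)

open Classical in
/-- total excess of the degrees over three -/
noncomputable def occ (E : Finset (Finset σ)) : ℕ :=
  ∑ i ∈ E.biUnion id, ((E.filter (fun e => i ∈ e)).card - 3)

/-- the term `c x^m` is not allowed: it is not squarefree, or has two variables of the same colour,
or is constant, or has degree at least two and `c ≠ 1` -/
def Bad (κ : σ → Fin 3) (m : σ →₀ ℕ) (c : k) : Prop :=
  (∃ t, 2 ≤ cnt κ m t) ∨ m = 0 ∨ (2 ≤ m.degree ∧ c ≠ 1)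

open Classical in
/-- total complexity of the bad terms -/
noncomputable def wt1 (κ : σ → Fin 3) (f : MvPolynomial σ k) : ℕ :=
  ∑ m ∈ f.support with Bad κ m (coeff m f), 3 ^ cpl κ m

end

end Pool.Agent.H70.Mono
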