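import Pool.Agent.H70.Mono.D
import Pool.Agent.H27.Mono.B3
import Pool.Agent.H31.Mono.C2
import Pool.Agent.H70.Mono.G2
import Pool.Agent.H97.Mono.G1

/-!
# Assembly for project MONO (strong normal form)
-/

set_option autoImplicit false

namespace Pool.Agent.H70.Mono

open MvPolynomial

section

variable {k : Type} [Field k] [Algebra k ℂ] {σ τ : Type}

omit [Algebra k ℂ] in
theorem aeval_ext_rename (e : MvPolynomial σ k →ₐ[k] MvPolynomial τ k) (g : MvPolynomial σ k) :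
    aeval (Sum.elim (fun j => rename Sum.inl (e (X j))) (fun b => X (Sum.inr b)) :
      σ ⊕ Bool → MvPolynomial (τ ⊕ Bool) k) (rename Sum.inl g) = rename Sum.inl (e g) := by
  have : ((aeval (Sum.elim (fun j => rename Sum.inl (e (X j))) (fun b => X (Sum.inr b)) :
      σ ⊕ Bool → MvPolynomial (τ ⊕ Bool) k)).comp (rename Sum.inl) :
        MvPolynomial σ k →ₐ[k] MvPolynomial (τ ⊕ Bool) k) = (rename Sum.inl).comp e := by
    ext j
    simp
  exact DFunLike.congr_fun this g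

omit [Algebra k ℂ] in
/-- the extension of an isomorphism to two more variables -/
theorem exists_stab_equiv (e : MvPolynomial σ k ≃ₐ[k] MvPolynomial τ k) (f : MvPolynomial σ k) :
    ∃ e' : MvPolynomial (σ ⊕ Bool) k ≃ₐ[k] MvPolynomial (τ ⊕ Bool) k,
      e' (stab k f) = stab k (e f) := by
  let a : MvPolynomial (σ ⊕ Bool) k →ₐ[k] MvPolynomial (τ ⊕ Bool) k :=
    aeval (Sum.elim (fun j => rename Sum.inl ((e : MvPolynomial σ k →ₐ[k] MvPolynomial τ k) (X j)))
      (fun b => X (Sum.inr b)))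
  let b : MvPolynomial (τ ⊕ Bool) k →ₐ[k] MvPolynomial (σ ⊕ Bool) k :=
    aeval (Sum.elim (fun j => rename Sum.inl
      ((e.symm : MvPolynomial τ k →ₐ[k] MvPolynomial σ k) (X j))) (fun b => X (Sum.inr b)))
  have ha : ∀ g, a (rename Sum.inl g) = rename Sum.inl (e g) := fun g => aeval_ext_rename _ g
  have hb : ∀ g, b (rename Sum.inl g) = rename Sum.inl (e.symm g) := fun g => aeval_ext_rename _ g
  have ha' : ∀ c, a (X (Sum.inr c)) = X (Sum.inr c) := fun c => by simp [a]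
  have hb' : ∀ c, b (X (Sum.inr c)) = X (Sum.inr c) := fun c => by simp [b]
  refine ⟨AlgEquiv.ofAlgHom a b ?_ ?_, ?_⟩
  · apply algHom_ext
    rintro (j | c)
    · have h1 := hb (X j)
      rw [rename_X] at h1
      simp only [AlgHom.comp_apply, AlgHom.id_apply]
      rw [h1, ha]
      simp
    · simp only [AlgHom.comp_apply, AlgHom.id_apply]
      rw [hb', ha']
  · apply algHom_ext
    rintro (j | c)
    · have h1 := ha (X j)
      rw [rename_X] at h1
      simp only [AlgHom.comp_apply, AlgHom.id_apply]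
      rw [h1, hb]
      simp
    · simp only [AlgHom.comp_apply, AlgHom.id_apply]
      rw [ha', hb']
  · simp only [stab, AlgEquiv.ofAlgHom_apply, map_add, map_mul, ha, ha']

omit [Algebra k ℂ] in
theorem IsRoot_equiv (e : MvPolynomial σ k ≃ₐ[k] MvPolynomial τ k) {f : MvPolynomial σ k} {α : ℚ}
    (h : IsRoot k f α) : IsRoot k (e f) α := by
  intro b hb
  apply h
  have := IsBS_equiv e.symm hb
  simpa using this

omit [Algebra k ℂ] in
theorem Eig_equiv (e : MvPolynomial σ k ≃ₐ[k] MvPolynomial τ k) {f : MvPolynomial σ k} {a : ℤ}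
    {b : ℕ} (h : Eig k f a b) : Eig k (e f) a b := by
  obtain ⟨α, h1, z, h2⟩ := h
  exact ⟨α, h1.imp id (IsRoot_equiv e), z, h2⟩

theorem MC'_equiv [Finite σ] [Finite τ] (h : Nat.card σ = Nat.card τ)
    (e : MvPolynomial σ k ≃ₐ[k] MvPolynomial τ k) {f : MvPolynomial σ k} (hf : MC' k f) :
    MC' k (e f) := by
  obtain ⟨S, h0, h1, h2⟩ := hf
  refine ⟨S, h0, ?_, fun p hp => Eig_equiv e (h2 p hp)⟩
  rw [Zmot_equiv h e]
  exact h1

omit [Algebra k ℂ] in
theorem Eig_stab [CharZero k] {f : MvPolynomial σ k} {a : ℤ} {b : ℕ} (hb : 0 < b)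
    (h : Eig k (stab k f) a b) : Eig k f (a + b) b := by
  obtain ⟨α, h1, z, h2⟩ := h
  have hb' : (b : ℚ) ≠ 0 := by exact_mod_cast hb.ne'
  rcases h1 with rfl | h1
  · refine ⟨-1, Or.inl rfl, z - 1, ?_⟩
    push_cast
    rw [← h2]
    field_simp
    ring
  · rcases IsRoot_stab h1 with rfl | h3
    · refine ⟨-1, Or.inl rfl, z - 1, ?_⟩
      push_cast
      rw [← h2]
      field_simp
      ring
    · refine ⟨α + 1, Or.inr h3, z, ?_⟩
      rw [← h2]
      push_cast
      field_simp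
      ring

omit [Algebra k ℂ] in
theorem Eig_neg_one (f : MvPolynomial σ k) : Eig k f (-1) 1 :=
  ⟨-1, Or.inl rfl, 0, by norm_num⟩

theorem MC'_of_stab [Finite σ] {f : MvPolynomial σ k} (h1 : MC' k (stab k f))
    (h2 : MC' k (stab k (stab k f))) : MC' k f := by
  classical
  have : CharZero k := (algebraMap k ℂ).charZero
  obtain ⟨S1, p1, z1, e1⟩ := h1
  obtain ⟨S2, p2, z2, e2⟩ := h2
  refine ⟨{(-1, 1)} ∪ S1.image (fun p : ℤ × ℕ => (p.1 + p.2, p.2)) ∪
    S2.image (fun p : ℤ × ℕ => (p.1 + 2 * p.2, p.2)), ?_, ?_, ?_⟩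
  · intro p hp
    simp only [Finset.mem_union, Finset.mem_singleton, Finset.mem_image] at hp
    rcases hp with (rfl | ⟨q, hq, rfl⟩) | ⟨q, hq, rfl⟩
    · simp
    · exact p1 q hq
    · exact p2 q hq
  · have := Z_mem f S1 S2 z1 z2
    rw [Finset.coe_union, Finset.coe_union, Finset.coe_image, Finset.coe_image,
      Finset.coe_singleton]
    exact this
  · intro p hp
    simp only [Finset.mem_union, Finset.mem_singleton, Finset.mem_image] at hp
    rcases hp with (rfl | ⟨q, hq, rfl⟩) | ⟨q, hq, rfl⟩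
    · exact Eig_neg_one f
    · exact Eig_stab (p1 q hq) (e1 q hq)
    · have h3 := Eig_stab (p2 q hq) (Eig_stab (p2 q hq) (e2 q hq))
      have h4 : q.1 + (q.2 : ℤ) + q.2 = q.1 + 2 * q.2 := by ring
      rw [h4] at h3
      exact h3

/-- the conjecture after `s` stabilisations -/
def MCn (k : Type) [Field k] [Algebra k ℂ] :
    ℕ → ∀ (σ : Type) [Finite σ], MvPolynomial σ k → Prop
  | 0, _, _, f => MC' k f
  | (s + 1), σ, _, f => MCn k s (σ ⊕ Bool) (stab k f)

theorem MCn_equiv : ∀ (s : ℕ) (σ τ : Type) [Finite σ] [Finite τ] (_ : Nat.card σ = Nat.card τ)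
    (e : MvPolynomial σ k ≃ₐ[k] MvPolynomial τ k) (f : MvPolynomial σ k) (_ : MCn k s σ f),
    MCn k s τ (e f)
  | 0, _, _, _, _, h, e, _, hf => MC'_equiv h e hf
  | (s + 1), σ, τ, _, _, h, e, f, hf => by
    obtain ⟨e', he'⟩ := exists_stab_equiv e f
    have h1 : Nat.card (σ ⊕ Bool) = Nat.card (τ ⊕ Bool) := by
      rw [Nat.card_sum, Nat.card_sum, h]
    have := MCn_equiv s (σ ⊕ Bool) (τ ⊕ Bool) h1 e' (stab k f) hf
    rw [he'] at this
    exact this

theorem MCn_of_succ {σ : Type} [Finite σ] {f : MvPolynomial σ k}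
    (h : ∀ s, MCn k s (σ ⊕ Bool) (stab k f)) : ∀ s, MCn k s σ f
  | 0 => MC'_of_stab (h 0) (h 1)
  | (s + 1) => h s

omit [Algebra k ℂ] in
theorem stab_hyp [DecidableEq (Finset (σ ⊕ Bool))] [DecidableEq (σ ⊕ Bool)]
    (E : Finset (Finset σ)) (ℓ : σ →₀ k) : stab k (hyp E ℓ) =
    hyp (insert {Sum.inr true, Sum.inr false} (mapE ⟨Sum.inl, Sum.inl_injective⟩ E))
      (ℓ.mapDomain (⟨Sum.inl, Sum.inl_injective⟩ : σ ↪ σ ⊕ Bool)) := by
  have h : ({Sum.inr true, Sum.inr false} : Finset (σ ⊕ Bool)) ∉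
      mapE ⟨Sum.inl, Sum.inl_injective⟩ E :=
    notMem_mapE _ _ (t := Sum.inr true) (by simp) (by simp)
  have h2 : hE k (insert {Sum.inr true, Sum.inr false}
      (mapE (⟨Sum.inl, Sum.inl_injective⟩ : σ ↪ σ ⊕ Bool) E)) =
      X (Sum.inr true) * X (Sum.inr false) + rename Sum.inl (hE k E) := by
    have h3 := hE_mapE (k := k) (⟨Sum.inl, Sum.inl_injective⟩ : σ ↪ σ ⊕ Bool) E
    unfold hE at h3 ⊢
    rw [Finset.sum_insert h, Finset.prod_pair (by simp), h3]
    rfl
  rw [hyp_eq, hyp_eq, hl_map, h2, stab, map_add]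
  change _ = _ + rename Sum.inl (hl ℓ)
  ring

omit [Algebra k ℂ] in
theorem dg_le_of_occ {E : Finset (Finset σ)} (h : occ E = 0) (i : σ) : dg E i ≤ 3 := by
  classical
  by_cases hi : i ∈ E.biUnion id
  · unfold occ at h
    have := (Finset.sum_eq_zero_iff.mp h) i hi
    unfold dg
    exact Nat.sub_eq_zero_iff_le.mp this
  · have : dg E i = 0 := dg_zero E i fun e he hie => hi (Finset.mem_biUnion.mpr ⟨e, he, hie⟩)
    omega

omit [Algebra k ℂ] in
theorem dg_insert_le1 [DecidableEq (Finset σ)] (E : Finset (Finset σ)) (a : Finset σ) (i : σ) :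
    dg (insert a E) i ≤ dg E i + 1 := by
  unfold dg
  rw [Finset.filter_insert]
  split_ifs with h
  · exact Finset.card_insert_le _ _
  · omega

omit [Algebra k ℂ] in
theorem dg_insert_le2 [DecidableEq (Finset σ)] (E : Finset (Finset σ)) (a : Finset σ) (i : σ)
    (h : i ∉ a) : dg (insert a E) i ≤ dg E i := by
  unfold dg
  rw [Finset.filter_insert, if_neg h]

omit [Algebra k ℂ] in
theorem fine_stab [DecidableEq (Finset (σ ⊕ Bool))] [DecidableEq (σ ⊕ Bool)]
    {E : Finset (Finset σ)} {κ : σ → Fin 3} (hT : Tri κ E) (hd : ∀ i, dg E i ≤ 3) :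
    Tri (Sum.elim κ (fun b : Bool => if b then 0 else 1))
      (insert {Sum.inr true, Sum.inr false} (mapE ⟨Sum.inl, Sum.inl_injective⟩ E)) ∧
    ∀ i, dg (insert {Sum.inr true, Sum.inr false}
      (mapE (⟨Sum.inl, Sum.inl_injective⟩ : σ ↪ σ ⊕ Bool) E)) i ≤ 3 := by
  constructor
  · intro a ha
    rcases Finset.mem_insert.mp ha with rfl | ha
    · refine ⟨by rw [Finset.card_pair (by simp)], ?_⟩
      intro a ha b hb hab
      simp only [Finset.coe_insert, Finset.coe_singleton, Set.mem_insert_iff,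
        Set.mem_singleton_iff] at ha hb
      rcases ha with rfl | rfl <;> rcases hb with rfl | rfl <;> simp_all
    · obtain ⟨e, he, rfl⟩ := (mem_mapE _ _ _).mp ha
      exact fine_map _ (fun i => rfl) (hT e he)
  · intro i
    rcases i with i | b
    · have h3 := dg_mapE (⟨Sum.inl, Sum.inl_injective⟩ : σ ↪ σ ⊕ Bool) E i
      have h4 : dg (mapE (⟨Sum.inl, Sum.inl_injective⟩ : σ ↪ σ ⊕ Bool) E) (Sum.inl i) = dg E i := h3
      refine (dg_insert_le2 _ _ _ (by simp)).trans ?_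
      rw [h4]
      exact hd i
    · have h3 := dg_mapE_zero (⟨Sum.inl, Sum.inl_injective⟩ : σ ↪ σ ⊕ Bool) E (Sum.inr b)
        (by simp)
      refine (dg_insert_le1 _ _ _).trans ?_
      rw [h3]
      omega

variable (H : ∀ (n : ℕ) (κ : Fin n → Fin 3) (E : Finset (Finset (Fin n))) (ℓ : Fin n →₀ k),
  Tri κ E → (∀ i, dg E i ≤ 3) → E.Nonempty → MC' k (hyp E ℓ))

include H in
theorem MC'_hyp [Finite σ] {κ : σ → Fin 3} {E : Finset (Finset σ)} {ℓ : σ →₀ k}
    (hT : Tri κ E) (hd : ∀ i, dg E i ≤ 3) (hne : E.Nonempty) : MC' k (hyp E ℓ) := by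
  have : Fintype σ := Fintype.ofFinite _
  let e := Fintype.equivFin σ
  have h1 := H (Fintype.card σ) (κ ∘ e.symm) (mapE e.toEmbedding E) (ℓ.mapDomain e) ?_ ?_ ?_
  · have h2 := MC'_equiv (k := k) ?_ (renameEquiv k e.symm) h1
    · have h3 : (renameEquiv k e.symm) (hyp (mapE e.toEmbedding E) (ℓ.mapDomain e)) = hyp E ℓ := by
        have h4 : hyp (mapE e.toEmbedding E) (ℓ.mapDomain e) = rename e (hyp E ℓ) := by
          rw [hyp_eq, hyp_eq, hE_mapE, map_add]
          congr 1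
          exact hl_map e.toEmbedding ℓ
        rw [h4]
        simp [rename_rename]
      rw [h3] at h2
      exact h2
    · simp
  · intro a ha
    obtain ⟨e', he', rfl⟩ := (mem_mapE _ _ _).mp ha
    exact fine_map e.toEmbedding (fun i => by simp) (hT e' he')
  · intro i
    have h5 := dg_mapE e.toEmbedding E (e.symm i)
    have h6 : e.toEmbedding (e.symm i) = i := by simp
    rw [h6] at h5
    rw [h5]
    exact hd _
  · obtain ⟨a, ha⟩ := hne
    exact ⟨a.map e.toEmbedding, (mem_mapE _ _ _).mpr ⟨a, ha, rfl⟩⟩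

include H in
theorem MCn_hyp : ∀ (s : ℕ) (σ : Type) [Finite σ] (κ : σ → Fin 3) (E : Finset (Finset σ))
    (ℓ : σ →₀ k) (_ : Tri κ E) (_ : ∀ i, dg E i ≤ 3), MCn k s (σ ⊕ Bool) (stab k (hyp E ℓ))
  | 0, σ, _, κ, E, ℓ, hT, hd => by
    classical
    obtain ⟨h1, h2⟩ := fine_stab hT hd
    show MC' k _
    rw [stab_hyp]
    exact MC'_hyp H h1 h2 (Finset.insert_nonempty _ _)
  | (s + 1), σ, _, κ, E, ℓ, hT, hd => by
    classical
    obtain ⟨h1, h2⟩ := fine_stab hT hd
    have h3 := MCn_hyp s (σ ⊕ Bool) _ _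
      (ℓ.mapDomain (⟨Sum.inl, Sum.inl_injective⟩ : σ ↪ σ ⊕ Bool)) h1 h2
    rw [← stab_hyp] at h3
    exact h3

include H in
theorem MCn_hyp_all : ∀ (N : ℕ) (σ : Type) [Finite σ] (κ : σ → Fin 3) (E : Finset (Finset σ))
    (ℓ : σ →₀ k) (_ : Tri κ E) (_ : occ E ≤ N), ∀ s, MCn k s σ (hyp E ℓ) := by
  intro N
  induction N with
  | zero =>
    intro σ _ κ E ℓ hT h
    exact MCn_of_succ fun s => MCn_hyp H s σ κ E ℓ hT (dg_le_of_occ (Nat.le_zero.mp h))
  | succ N ih =>
    intro σ _ κ E ℓ hT h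
    by_cases h0 : occ E = 0
    · exact ih σ κ E ℓ hT (by omega)
    · obtain ⟨a1, a2, κ', E', ℓ', hT', h1, h2⟩ := occ_decr (ℓ := ℓ) hT h0
      have h3 := ih ((σ ⊕ Bool) ⊕ Bool) κ' E' ℓ' hT' (by omega)
      rw [← h1] at h3
      have h4 : ∀ s, MCn k s _ (stab k (a1 (stab k (hyp E ℓ)))) := fun s => by
        simpa using MCn_equiv s _ _ rfl a2.symm _ (h3 s)
      have h5 := MCn_of_succ h4
      have h6 : ∀ s, MCn k s _ (stab k (hyp E ℓ)) := fun s => by
        simpa using MCn_equiv s _ _ rfl a1.symm _ (h5 s)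
      exact MCn_of_succ h6

include H in
theorem MCn_all : ∀ (N : ℕ) (σ : Type) [Finite σ] (f : MvPolynomial σ k) (κ : σ → Fin 3)
    (_ : wt1 κ f ≤ N), ∀ s, MCn k s σ f := by
  intro N
  induction N with
  | zero =>
    intro σ _ f κ h
    obtain ⟨E, ℓ, hT, rfl⟩ := exists_hyp (Nat.le_zero.mp h)
    exact MCn_hyp_all H _ σ κ E ℓ hT le_rfl
  | succ N ih =>
    intro σ _ f κ h
    by_cases h0 : wt1 κ f = 0
    · exact ih σ f κ (by omega)
    · obtain ⟨e, κ', h1⟩ := wt1_decr h0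
      have h2 := ih (σ ⊕ Bool) (e (stab k f)) κ' (by omega)
      refine MCn_of_succ fun s => ?_
      have h3 := MCn_equiv s _ _ rfl e.symm _ (h2 s)
      simpa using h3

include H in
theorem main (n : ℕ) (f : MvPolynomial (Fin n) k) : MC' k f :=
  MCn_all H _ (Fin n) f (fun _ => 0) le_rfl 0

end

end Pool.Agent.H70.Mono
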