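import Pool.Agent.H70.Mono.Defs

/-!
# Public definitions for the motivic monodromy conjecture (MP_432c1b_ag)

These definitions agree with those of `Pool/Agent/H70/Mono/Defs.lean` (see `PubLemmas.lean`) but
their terms are short, so that statements can be printed.

* `IsCons k X`: `X ⊆ ℂ^ι` is constructible and defined over `k ⊆ ℂ`;
* `K0 k`: the Grothendieck ring of varieties over `k`, presented by classes of constructible sets
  defined over `k`, with the relations: additivity for disjoint unions, invariance under bijections
  given by polynomial maps over `k`, products, the class of a point is one;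
* `L k`: the class of the affine line, `M k = K0 k [1/L]`, `mot X` the class of `X` in `M k`;
* `Y k N c f`: the truncated arcs `φ mod t^N` with `f(φ) ≡ c t^(N-1) mod t^N`;
* `Zmot k f`: the motivic zeta function;
* `InRS k S h`: `h` is in the subalgebra generated by `T` and the inverses of `1 - L^a T^b`;
* `IsDiffOp`, `IsBS`, `IsRoot`: differential operators, functional equations, roots of the
  Bernstein-Sato polynomial;
* `MC k f`: the motivic monodromy conjecture for `f`; `MC' k f`: the same without `a < 0`.
-/

set_option autoImplicit false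

namespace Pool.Agent.H70.MonoP

open MvPolynomial
open Pool.Agent.H70.Mono (IsCons CSet Rel arc arcEval Y)

section

variable (k : Type) [Field k] [Algebra k ℂ]

/-- the ideal generated by the relations -/
noncomputable def relIdeal : Ideal (MvPolynomial (CSet k) ℤ) := Ideal.span {r | Rel k r}

/-- the Grothendieck ring of varieties over `k` -/
def K0 : Type 1 := MvPolynomial (CSet k) ℤ ⧸ relIdeal k

/-- the ring structure of the quotient -/
noncomputable def commRingQuotient : CommRing (MvPolynomial (CSet k) ℤ ⧸ relIdeal k) :=
  inferInstance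

noncomputable instance : CommRing (K0 k) := commRingQuotient k

variable {k} in
/-- the generators of the Grothendieck ring -/
noncomputable def gen (A : CSet k) : K0 k :=
  Ideal.Quotient.mk (relIdeal k) (X A)

open Classical in
/-- the class of a constructible set (and `0` for other sets) -/
noncomputable def cl {ι : Type} [Finite ι] (A : Set (ι → ℂ)) : K0 k :=
  if h : IsCons k A then gen ⟨ι, inferInstance, A, h⟩ else 0

/-- the class of the affine line -/
noncomputable def L : K0 k := cl k (Set.univ : Set (Unit → ℂ))

/-- the localised Grothendieck ring `K0 k [1/L]` -/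
def M : Type 1 := Localization.Away (L k)

/-- the ring structure of the localisation -/
noncomputable def commRingAway : CommRing (Localization.Away (L k)) := inferInstance

noncomputable instance : CommRing (M k) := commRingAway k

/-- the localisation map -/
noncomputable def toM : K0 k →+* M k := algebraMap (K0 k) (Localization.Away (L k))

theorem isUnit_toM_L : IsUnit (toM k (L k)) :=
  IsLocalization.Away.algebraMap_isUnit (S := Localization.Away (L k)) (L k)

/-- the class of the affine line as a unit of `M k` -/
noncomputable def Lu : (M k)ˣ := (isUnit_toM_L k).unit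

/-- `L^a` for an integer `a` -/
noncomputable def Lz (a : ℤ) : M k := ↑(Lu k ^ a)

/-- the class of a constructible set in `M k` -/
noncomputable def mot {ι : Type} [Finite ι] (A : Set (ι → ℂ)) : M k :=
  toM k (cl k A)

variable {σ : Type}

/-- the motivic zeta function: the coefficient of `T^d` is `[X_{d,1}] L^{-md}` -/
noncomputable def Zmot [Finite σ] (f : MvPolynomial σ k) : PowerSeries (M k) :=
  PowerSeries.mk fun d => mot k (Y k (d + 1) 1 f) * Lz k (-((Nat.card σ * d : ℕ) : ℤ))

/-- `1 - L^a T^b` -/
noncomputable def den (a : ℤ) (b : ℕ) : PowerSeries (M k) :=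
  1 - PowerSeries.C (Lz k a) * PowerSeries.X ^ b

/-- the generators of `M_k[T, 1/(1 - L^a T^b)]`, `(a,b) ∈ S` -/
def gens (S : Finset (ℤ × ℕ)) : Set (PowerSeries (M k)) :=
  {g | g = PowerSeries.X ∨ ∃ p ∈ S, g * den k p.1 p.2 = 1}

/-- `h` is in the algebra `M_k[T, 1/(1 - L^a T^b)]`, `(a,b) ∈ S` -/
def InRS (S : Finset (ℤ × ℕ)) (h : PowerSeries (M k)) : Prop := h ∈ Algebra.adjoin (M k) (gens k S)

end

section BS

variable {k : Type} [Field k] {σ : Type}

/-- differential operators on `k[x]`: generated by the multiplications and the partial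
derivatives -/
inductive IsDiffOp : (MvPolynomial σ k → MvPolynomial σ k) → Prop
  | mul (g : MvPolynomial σ k) : IsDiffOp (fun x => g * x)
  | der (i : σ) : IsDiffOp (fun x => pderiv i x)
  | add {S T : MvPolynomial σ k → MvPolynomial σ k} :
      IsDiffOp S → IsDiffOp T → IsDiffOp (fun x => S x + T x)
  | comp {S T : MvPolynomial σ k → MvPolynomial σ k} :
      IsDiffOp S → IsDiffOp T → IsDiffOp (fun x => S (T x))

/-- `b` satisfies a functional equation `P(s) f^{s+1} = b(s) f^s` with `P(s) = ∑ s^i P_i`, `P_i`
differential operators; as both sides are polynomial in `s`, this means that it holds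
for all natural numbers `s = n` -/
def IsBS (f : MvPolynomial σ k) (b : Polynomial k) : Prop :=
  ∃ (N : ℕ) (P : ℕ → MvPolynomial σ k → MvPolynomial σ k), (∀ i, IsDiffOp (P i)) ∧
    ∀ n : ℕ, ∑ i ∈ Finset.range N, C ((n : k) ^ i) * P i (f ^ (n + 1)) =
      C (b.eval (n : k)) * f ^ n

/-- `α` is a root of the Bernstein-Sato polynomial of `f`, i.e. of all polynomials satisfying a
functional equation -/
def IsRoot (f : MvPolynomial σ k) (α : ℚ) : Prop :=
  ∀ b : Polynomial k, IsBS f b → b.eval (α : k) = 0

/-- `exp(2πi a/b)` is a monodromy eigenvalue of `f` (Kashiwara, Malgrange: the eigenvalues are the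
`exp(2πi α)`, `α` a root of the Bernstein-Sato polynomial, which has the root `-1`) -/
def Eig (f : MvPolynomial σ k) (a : ℤ) (b : ℕ) : Prop :=
  ∃ α : ℚ, (α = -1 ∨ IsRoot f α) ∧ ∃ z : ℤ, α - a / b = z

end BS

section Conj

variable (k : Type) [Field k] [Algebra k ℂ] {σ : Type}

/-- the motivic monodromy conjecture for `f` -/
def MC [Finite σ] (f : MvPolynomial σ k) : Prop :=
  ∃ S : Finset (ℤ × ℕ), (∀ p ∈ S, p.1 < 0 ∧ 0 < p.2) ∧ InRS k S (Zmot k f) ∧
    ∀ p ∈ S, Eig f p.1 p.2

/-- the motivic monodromy conjecture for `f` without the condition `a < 0` on the set `S` -/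
def MC' [Finite σ] (f : MvPolynomial σ k) : Prop :=
  ∃ S : Finset (ℤ × ℕ), (∀ p ∈ S, 0 < p.2) ∧ InRS k S (Zmot k f) ∧
    ∀ p ∈ S, Eig f p.1 p.2

end Conj

end Pool.Agent.H70.MonoP
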