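import Pool.Agent.H70.Mono.Pub

set_option autoImplicit false

namespace Pool.Agent.H70.MonoP

open MvPolynomial
open Pool.Agent.H70.Mono (IsCons CSet Rel arc arcEval Y DiffOps)

section

variable (k : Type) [Field k] [Algebra k ℂ] {σ : Type} [Finite σ]

theorem gens_eq (S : Finset (ℤ × ℕ)) : (gens k S : Set (PowerSeries (M k))) =
    ({PowerSeries.X} ∪ {g | ∃ p ∈ (S : Set (ℤ × ℕ)), g * Mono.den k p = 1} :
      Set (PowerSeries (Mono.M k))) := rfl

theorem inRS_iff (S : Finset (ℤ × ℕ)) (f : MvPolynomial σ k) : InRS k S (Zmot k f) ↔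
    Mono.Zmot k f ∈ Mono.RS k (S : Set (ℤ × ℕ)) := Iff.rfl

end

section

variable {k : Type} [Field k] {σ : Type}

theorem exists_of_isDiffOp {T : MvPolynomial σ k → MvPolynomial σ k} (h : IsDiffOp T) :
    ∃ D : DiffOps k σ, ∀ x, (D : Module.End k (MvPolynomial σ k)) x = T x := by
  induction h with
  | mul g => exact ⟨⟨_, Algebra.subset_adjoin (Or.inl ⟨g, rfl⟩)⟩, fun x => rfl⟩
  | der i => exact ⟨⟨_, Algebra.subset_adjoin (Or.inr ⟨pderiv i, rfl⟩)⟩, fun x => rfl⟩
  | @add S T _ _ h1 h2 =>
    obtain ⟨D1, h1⟩ := h1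
    obtain ⟨D2, h2⟩ := h2
    refine ⟨D1 + D2, fun x => ?_⟩
    show (D1 : Module.End k (MvPolynomial σ k)) x + (D2 : Module.End k (MvPolynomial σ k)) x = _
    rw [h1, h2]
  | @comp S T _ _ h1 h2 =>
    obtain ⟨D1, h1⟩ := h1
    obtain ⟨D2, h2⟩ := h2
    refine ⟨D1 * D2, fun x => ?_⟩
    show (D1 : Module.End k (MvPolynomial σ k)) ((D2 : Module.End k (MvPolynomial σ k)) x) = _
    rw [h1, h2]

theorem isDiffOp_zero : IsDiffOp (fun _ : MvPolynomial σ k => 0) := by
  have := IsDiffOp.mul (0 : MvPolynomial σ k)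
  simpa using this

theorem isDiffOp_sum {J : Type*} (s : Finset J) (T : J → MvPolynomial σ k → MvPolynomial σ k)
    (h : ∀ j, IsDiffOp (T j)) : IsDiffOp (fun x => ∑ j ∈ s, T j x) := by
  classical
  induction s using Finset.induction_on with
  | empty => simpa using isDiffOp_zero
  | insert a s ha ih =>
    simp only [Finset.sum_insert ha]
    exact (h a).add ih

theorem derivation_eq [Finite σ] (δ : Derivation k (MvPolynomial σ k) (MvPolynomial σ k)) :
    ∃ (s : Finset σ), ∀ x, δ x = ∑ i ∈ s, δ (X i) * pderiv i x := by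
  classical
  have : Fintype σ := Fintype.ofFinite σ
  have key : ∀ (s : Finset σ) (x : MvPolynomial σ k), (∑ i ∈ s, δ (X i) •
      (pderiv i : Derivation k (MvPolynomial σ k) (MvPolynomial σ k))) x =
      ∑ i ∈ s, δ (X i) * pderiv i x := by
    intro s x
    induction s using Finset.induction_on with
    | empty => simp
    | insert a s ha ih =>
      rw [Finset.sum_insert ha, Finset.sum_insert ha, Derivation.add_apply, ih,
        Derivation.smul_apply, smul_eq_mul]
  refine ⟨Finset.univ, fun x => ?_⟩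
  have h : δ = ∑ i, δ (X i) • (pderiv i : Derivation k (MvPolynomial σ k) (MvPolynomial σ k)) := by
    apply derivation_ext
    intro j
    rw [key, Finset.sum_eq_single j]
    · simp
    · intro i _ hij
      simp [pderiv_X_of_ne hij.symm]
    · simp
  rw [← key, ← h]

theorem isDiffOp_of_mem [Finite σ] {T : Module.End k (MvPolynomial σ k)} (hT : T ∈ DiffOps k σ) :
    IsDiffOp (fun x => T x) := by
  unfold DiffOps at hT
  induction hT using Algebra.adjoin_induction with
  | mem T hT =>
    rcases hT with ⟨g, rfl⟩ | ⟨δ, rfl⟩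
    · exact IsDiffOp.mul g
    · obtain ⟨s, hs⟩ := derivation_eq δ
      have : (fun x => (δ : MvPolynomial σ k →ₗ[k] MvPolynomial σ k) x) =
          fun x => ∑ i ∈ s, δ (X i) * pderiv i x := by
        funext x; exact hs x
      rw [this]
      exact isDiffOp_sum s _ fun i => (IsDiffOp.mul (δ (X i))).comp (IsDiffOp.der i)
  | algebraMap r =>
    have : (fun x => (algebraMap k (Module.End k (MvPolynomial σ k)) r) x) =
        fun x => C r * x := by
      funext x
      rw [Module.algebraMap_end_apply, MvPolynomial.smul_eq_C_mul]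
    rw [this]
    exact IsDiffOp.mul _
  | add x y _ _ hx hy => exact hx.add hy
  | mul x y _ _ hx hy => exact hx.comp hy

theorem isBS_iff [Finite σ] (f : MvPolynomial σ k) (b : Polynomial k) :
    IsBS f b ↔ Mono.IsBS k f b := by
  constructor
  · rintro ⟨N, P, hP, h⟩
    choose D hD using fun i => exists_of_isDiffOp (hP i)
    refine ⟨∑ i ∈ Finset.range N, Polynomial.monomial i (D i), fun n => ?_⟩
    rw [Polynomial.eval_finsetSum]
    have h1 : ∀ (s : Finset ℕ) (F : ℕ → DiffOps k σ) (x : MvPolynomial σ k),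
        ((∑ i ∈ s, F i : DiffOps k σ) : Module.End k (MvPolynomial σ k)) x =
          ∑ i ∈ s, (F i : Module.End k (MvPolynomial σ k)) x := by
      intro s F x
      simp
    rw [h1]
    have h2 : ∀ i, ((Polynomial.eval (n : DiffOps k σ) (Polynomial.monomial i (D i)) :
        DiffOps k σ) : Module.End k (MvPolynomial σ k)) (f ^ (n + 1)) =
        C ((n : k) ^ i) * P i (f ^ (n + 1)) := by
      intro i
      rw [Polynomial.eval_monomial, ← Nat.cast_pow]
      have h3 : ((D i * ((n ^ i : ℕ) : DiffOps k σ) : DiffOps k σ) :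
          Module.End k (MvPolynomial σ k)) (f ^ (n + 1)) =
          (D i : Module.End k (MvPolynomial σ k)) (((n ^ i : ℕ) : Module.End k
            (MvPolynomial σ k)) (f ^ (n + 1))) := by
        simp
      rw [h3, Module.End.natCast_apply, map_nsmul, hD, nsmul_eq_mul]
      simp
    simp only [h2]
    rw [h n, MvPolynomial.smul_eq_C_mul]
  · rintro ⟨P, h⟩
    refine ⟨P.natDegree + 1, fun i x => ((P.coeff i : DiffOps k σ) :
      Module.End k (MvPolynomial σ k)) x, fun i => isDiffOp_of_mem (P.coeff i).2, fun n => ?_⟩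
    rw [← MvPolynomial.smul_eq_C_mul, ← h n, Polynomial.eval_eq_sum_range]
    have h1 : ∀ (s : Finset ℕ) (F : ℕ → DiffOps k σ) (x : MvPolynomial σ k),
        ((∑ i ∈ s, F i : DiffOps k σ) : Module.End k (MvPolynomial σ k)) x =
          ∑ i ∈ s, (F i : Module.End k (MvPolynomial σ k)) x := by
      intro s F x
      simp
    rw [h1]
    refine Finset.sum_congr rfl fun i _ => ?_
    rw [← Nat.cast_pow, ← Nat.cast_pow]
    have h3 : ((P.coeff i * ((n ^ i : ℕ) : DiffOps k σ) : DiffOps k σ) :
          Module.End k (MvPolynomial σ k)) (f ^ (n + 1)) =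
          (P.coeff i : Module.End k (MvPolynomial σ k)) (((n ^ i : ℕ) : Module.End k
            (MvPolynomial σ k)) (f ^ (n + 1))) := by
      simp
    rw [h3, Module.End.natCast_apply, map_nsmul, nsmul_eq_mul]
    simp

theorem isRoot_iff [Finite σ] (f : MvPolynomial σ k) (α : ℚ) :
    IsRoot f α ↔ Mono.IsRoot k f α := by
  unfold IsRoot Mono.IsRoot
  simp only [isBS_iff]

theorem eig_iff [Finite σ] (f : MvPolynomial σ k) (a : ℤ) (b : ℕ) :
    Eig f a b ↔ Mono.Eig k f a b := by
  unfold Eig Mono.Eig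
  simp only [isRoot_iff]

end

section

variable (k : Type) [Field k] [Algebra k ℂ] {σ : Type} [Finite σ]

theorem MC'_iff (f : MvPolynomial σ k) : MC' k f ↔ Mono.MC' k f := by
  unfold MC' Mono.MC'
  simp only [eig_iff, inRS_iff]

theorem MC_iff (f : MvPolynomial σ k) : MC k f ↔ Mono.MC k f := by
  unfold MC Mono.MC
  simp only [eig_iff, inRS_iff]

end

end Pool.Agent.H70.MonoP
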